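import Pool.Agent.Helper37.TF.Quo

/-!
# T*: closed or homogeneous nowhere degenerate forms on the cone
-/

set_option autoImplicit false

namespace Pool.Agent.Helper37.SD

open Module Filter Topology Pool.Agent.Helper20.TS

variable {K : Type} [Field K] [Algebra ℂ K] {K₀ : Type} [Field K₀] [Algebra ℂ K₀]
  {R : Subalgebra ℂ K} {v : RVal K} {R₀ : Subalgebra ℂ K₀} {ξ : Derivation ℂ K₀ K₀}
  {sym : ℝ → K → K₀}

/-- The Futaki invariant of the cone `Spec R` vanishes (as it does if the cone is K-semistable; `v = wt ξ`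
has the log discrepancy `a`): for every derivation `Y` of `R` which commutes with `ξ` and whose
divergence with respect to the volume form `ηⁿ` is a constant `δ`, the quotient of the traces of `Y` and
`ξ` on `R / {v ≥ m}` tends to `δ / a`.  The divergence is computed with a logarithmic frame
`D i = g i ∂ / ∂ g i` of derivations of `K` (see `dvF`). -/
def Fut (n : ℕ) (R : Subalgebra ℂ K) (ξ : Derivation ℂ K K) (η : Form K) (v : RVal K) (a : ℝ) :
    Prop :=
  ∀ Y : Derivation ℂ K K, Pres R Y → ⁅ξ, Y⁆ = 0 →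
    ∀ (D : Fin (2 * n) → Derivation ℂ K K) (g : Fin (2 * n) → K), IsFrame D g → ∀ δ : ℂ,
      dvF D g (gram η D).det Y = algebraMap ℂ K δ →
        ∀ s t : ℕ → ℂ, (∀ m : ℕ, IsTr R v m Y (s m)) → (∀ m : ℕ, IsTr R v m ξ (t m)) →
          Tendsto (fun m => s m / t m) atTop (𝓝 (δ / a))

/-- the log discrepancy of `wt ξ` is positive -/
theorem UniqueMin.pos {n : ℕ} {η : Form K₀} {v₀ : RVal K₀} {a V : ℝ}
    (hmin : UniqueMin n R₀ η v₀ a V) : 0 < a :=
  (hmin.2.2 v₀ a V (fun _ _ _ hx => hx) hmin.1 hmin.2.1).1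

theorem degen_symplectic' (h : IsCone R₀ ξ) (hR : IsFrac R) (hgr : IsGr R v R₀ ξ sym)
    {v₀ : RVal K₀} (hv : IsWt R₀ ξ v₀) {n : ℕ} (hq : QuasiMonomial (2 * n) v sym)
    (hN : Normal R₀) (hCM : CM (2 * n) R₀)
    {η : Form K₀} (hη : IsNondeg R₀ η) (hcase : Closed η ∨ ∃ ℓ : ℝ, HomForm ξ ℓ η) {a V : ℝ}
    (hmin : UniqueMin n R₀ η v₀ a V) (hFut : Fut n R₀ ξ η v₀ a)
    {ω : Form K} (hω : IsNondeg R ω) (hcl : Closed ω)
    (hdisc : HasLogDisc n ω v a) {ω₀ : Form K₀} {k : ℝ} (hdeg : IsDegen v sym ω k ω₀)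
    (hreg : IsReg R₀ ω₀) (hk : k ≠ 0) :
    k = a / n ∧ IsNondeg R₀ ω₀ ∧ Closed ω₀ ∧ HomForm ξ k ω₀ := by
  have hq' := hq
  obtain ⟨g, D, D₀, hD, hD₀, hind⟩ := hq'
  have hfin₀ : Module.Finite K₀ (Derivation ℂ K₀ K₀) := by
    refine Module.Finite.of_injective
      (LinearMap.pi fun i => (evd (sym (v.val (g i)) (g i)) : Derivation ℂ K₀ K₀ →ₗ[K₀] K₀)) ?_
    rw [injective_iff_map_eq_zero]
    intro E hE
    exact hD₀.ext fun i => congrFun hE i
  have hd₀ : finrank K₀ (Derivation ℂ K₀ K₀) = 2 * n := by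
    have hli : LinearIndependent K₀ D₀ := by
      rw [Fintype.linearIndependent_iff]
      exact fun c hc i => hD₀.linInd hc i
    have hsp : ⊤ ≤ Submodule.span K₀ (Set.range D₀) := by
      intro E _
      rw [hD₀.complete E]
      exact Submodule.sum_mem _ fun i _ => Submodule.smul_mem _ _
        (Submodule.subset_span ⟨i, rfl⟩)
    have := finrank_eq_card_basis (Basis.mk hli hsp)
    rwa [Fintype.card_fin] at this
  have hn : 0 < n := by
    rcases Nat.eq_zero_or_pos n with h0 | h0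
    · exfalso
      apply hdeg.ne
      have h1 : Subsingleton (Derivation ℂ K₀ K₀) := by
        rw [h0] at hd₀
        exact Module.finrank_zero_iff.mp hd₀
      ext A B : 2
      have : A = 0 := Subsingleton.elim _ _
      rw [this, map_zero]
      rfl
    · exact h0
  have hn' : (n : ℝ) ≠ 0 := by exact_mod_cast hn.ne'
  have ha := hmin.pos
  rcases hcase with hc | ⟨ℓ, hℓ⟩
  · have hFT : FT n R₀ ξ η a := by
      refine ft_of h ha.ne' (fun Y m => qTr R₀ v₀ Y m) ?_ (fun Y hY h0 D g hD δ hδ =>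
        hFut Y hY h0 D g hD δ hδ _ _ (fun m => isTr_qTr h hv hY h0 m)
          (fun m => isTr_qTr h hv h.pres (lie_self ξ) m))
      intro B hB hBξ D g hD hg t ht
      exact trace_identity h hv hn hd₀ hmin.2.1 hN hCM B hB hBξ hD ht
    obtain ⟨η', hη', hhom, hmin'⟩ := exists_hom h hv hN hn hfin₀ hd₀ hη hc hmin hFT
    have := degen_symplectic h hR hgr hv hq hη' hhom hmin' hω hcl hdisc hdeg hreg hk
    exact this
  · have h1 := degen_symplectic h hR hgr hv hq hη hℓ hmin hω hcl hdisc hdeg hreg hk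
    have h2 : a = n * ℓ := hmin.1.unique (logDisc_wt h hv hfin₀ hd₀ hη.alt hη.inj hℓ)
    refine ⟨?_, h1.2⟩
    rw [h1.1, h2, mul_div_cancel_left₀ _ hn']

end Pool.Agent.Helper37.SD
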