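import Pool.Agent.Helper37.SD.Main

/-!
# T*, form half: divergences and the maximal ideal
-/

set_option autoImplicit false

namespace Pool.Agent.Helper37.SD

open Module

variable {K : Type} [Field K] [Algebra ℂ K] {R : Subalgebra ℂ K} {ξ : Derivation ℂ K K}

/-- the divergence of `Y` with respect to the volume form `√Δ dlog g 1 ∧ … ∧ dlog g d`, where
`D i = g i ∂ / ∂ g i` -/
noncomputable def dvF {d : ℕ} (D : Fin d → Derivation ℂ K K) (g : Fin d → K) (Δ : K)
    (Y : Derivation ℂ K K) : K := ∑ i, D i (Y (g i) / g i) + Y Δ / (2 * Δ)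

theorem dvF_add {d : ℕ} (D : Fin d → Derivation ℂ K K) (g : Fin d → K) (Δ : K)
    (Y Z : Derivation ℂ K K) : dvF D g Δ (Y + Z) = dvF D g Δ Y + dvF D g Δ Z := by
  unfold dvF
  have h1 : ∑ i, D i ((Y + Z) (g i) / g i) = ∑ i, D i (Y (g i) / g i) + ∑ i, D i (Z (g i) / g i) := by
    rw [← Finset.sum_add_distrib]
    refine Finset.sum_congr rfl fun i _ => ?_
    rw [Derivation.add_apply, add_div, map_add]
  rw [h1, Derivation.add_apply, add_div]
  ring

theorem dvF_zero {d : ℕ} (D : Fin d → Derivation ℂ K K) (g : Fin d → K) (Δ : K) :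
    dvF D g Δ 0 = 0 := by
  have h1 := dvF_add D g Δ 0 0
  rw [add_zero] at h1
  simpa using h1

theorem dvF_sum {d : ℕ} (D : Fin d → Derivation ℂ K K) (g : Fin d → K) (Δ : K) {ι : Type}
    (s : Finset ι) (Y : ι → Derivation ℂ K K) :
    dvF D g Δ (∑ i ∈ s, Y i) = ∑ i ∈ s, dvF D g Δ (Y i) := by
  classical
  induction s using Finset.induction_on with
  | empty => rw [Finset.sum_empty, Finset.sum_empty, dvF_zero]
  | insert a s ha ih => rw [Finset.sum_insert ha, Finset.sum_insert ha, dvF_add, ih]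

/-- `div (f Y) = f div Y + Y f` -/
theorem dvF_smul {d : ℕ} {D : Fin d → Derivation ℂ K K} {g : Fin d → K} (hD : IsFrame D g) (Δ : K)
    (f : K) (Y : Derivation ℂ K K) : dvF D g Δ (f • Y) = f * dvF D g Δ Y + Y f := by
  unfold dvF
  have h1 : ∀ i, D i ((f • Y) (g i) / g i) = f * D i (Y (g i) / g i) + Y (g i) / g i * D i f := by
    intro i
    have h2 : (f • Y) (g i) / g i = f * (Y (g i) / g i) := by
      rw [Derivation.smul_apply, smul_eq_mul, mul_div_assoc]
    rw [h2, Derivation.leibniz, smul_eq_mul, smul_eq_mul]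
  have h3 : Y f = ∑ i, Y (g i) / g i * D i f := by
    conv_lhs => rw [hD.complete Y]
    rw [der_sum_apply]
    exact Finset.sum_congr rfl fun i _ => by rw [Derivation.smul_apply, smul_eq_mul]
  rw [Finset.sum_congr rfl fun i _ => h1 i, Finset.sum_add_distrib, ← Finset.mul_sum, ← h3,
    Derivation.smul_apply, smul_eq_mul, mul_div_assoc]
  ring

/-- the maximal ideal of the vertex -/
abbrev Mx (R : Subalgebra ℂ K) (ξ : Derivation ℂ K K) : Submodule ℂ K := RH R ξ (fun c => 0 < c)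

theorem mx_le {x : K} (hx : x ∈ Mx R ξ) : x ∈ R := rh_subset hx

theorem IsCone.mx_mul (h : IsCone R ξ) {x y : K} (hx : x ∈ Mx R ξ) (hy : y ∈ R) :
    x * y ∈ Mx R ξ :=
  hsp_mul (P := fun c => 0 < c) (Q := fun c => 0 ≤ c) (fun _ _ ha hb => add_pos_of_pos_of_nonneg ha hb)
    hx (h.span y hy)

/-- homogeneous elements of `R` of degree different from `0` are in the maximal ideal -/
theorem IsCone.mx_of_eig (h : IsCone R ξ) {x : K} {c : ℝ} (hx : x ∈ R) (hc : ξ x = (c : ℂ) • x)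
    (hc0 : c ≠ 0) : x ∈ Mx R ξ := by
  by_cases hx0 : x = 0
  · rw [hx0]
    exact Submodule.zero_mem _
  · exact mem_hsp hx (lt_of_le_of_ne (h.eig_nonneg hx hx0 hc) (Ne.symm hc0)) hc

/-- a constant in the maximal ideal vanishes -/
theorem mx_const {z : ℂ} (hz : algebraMap ℂ K z ∈ Mx R ξ) : z = 0 := by
  by_contra h0
  have h1 : algebraMap ℂ K z ≠ 0 := (map_ne_zero _).mpr h0
  have h2 : (ξ : K →ₗ[ℂ] K) (algebraMap ℂ K z) = ((0 : ℝ) : ℂ) • algebraMap ℂ K z := by
    show ξ (algebraMap ℂ K z) = _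
    rw [Derivation.map_algebraMap]
    simp
  exact lt_irrefl 0 (prop_of_mem_hsp h1 h2 hz)

/-- The endomorphism `B` of `Der K` is an endomorphism of `Der R`. -/
def PresE (R : Subalgebra ℂ K) (B : Derivation ℂ K K →ₗ[K] Derivation ℂ K K) : Prop :=
  ∀ E, Pres R E → Pres R (B E)

/-- The consequence of the trace identity and of the vanishing of the Futaki invariant: for an
endomorphism `B` of `Der R` of degree `0` with constant trace `t` the divergence `δ` of `B ξ`, if
constant, is `a t / (2 n)`. -/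
def FT (n : ℕ) (R : Subalgebra ℂ K) (ξ : Derivation ℂ K K) (η : Form K) (a : ℝ) : Prop :=
  ∀ (B : Derivation ℂ K K →ₗ[K] Derivation ℂ K K), PresE R B → (∀ E, ⁅ξ, B E⁆ = B ⁅ξ, E⁆) →
    ∀ (D : Fin (2 * n) → Derivation ℂ K K) (g : Fin (2 * n) → K), IsFrame D g →
      (∀ i, ∃ c : ℝ, ξ (g i) = (c : ℂ) • g i) → ∀ t δ : ℂ, trF D g B = algebraMap ℂ K t →
        dvF D g (gram η D).det (B ξ) = algebraMap ℂ K δ → δ * (2 * n) = a * t

end Pool.Agent.Helper37.SD
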