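import Pool.Agent.Helper37.TF.Int

/-!
# T*, form half: the volume form of a nondegenerate form on a cone is homogeneous
-/

set_option autoImplicit false

namespace Pool.Agent.Helper37.SD

open Module

variable {K : Type} [Field K] [Algebra ℂ K] {R : Subalgebra ℂ K} {ξ : Derivation ℂ K K}

private theorem dg1_neg {W : Submodule ℂ K} {P : ℝ → Prop} {x : K}
    (hx : x ∈ Hsp (ξ : K →ₗ[ℂ] K) W P) :
    x ∈ Hsp ((-ξ : Derivation ℂ K K) : K →ₗ[ℂ] K) W (fun c => P (-c)) := by
  refine (Submodule.span_le.mpr ?_) hx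
  rintro y ⟨hy, c, hc, h⟩
  refine mem_hsp (c := -c) hy (by simpa using hc) ?_
  show (-ξ : Derivation ℂ K K) y = _
  have h' : ξ y = (c : ℂ) • y := h
  rw [Derivation.neg_apply, h', Complex.ofReal_neg, neg_smul]

private theorem dg1_pres {ζ : Derivation ℂ K K} {P : ℝ → Prop} {x : K}
    (hx : x ∈ Hsp (ζ : K →ₗ[ℂ] K) ⊤ P) : ζ x ∈ Hsp (ζ : K →ₗ[ℂ] K) ⊤ P := by
  induction hx using Submodule.span_induction with
  | mem y hy =>
    obtain ⟨_, c, hc, h⟩ := hy
    have h' : ζ y = (c : ℂ) • y := h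
    rw [h']
    exact Submodule.smul_mem _ _ (mem_hsp Submodule.mem_top hc h)
  | zero => rw [map_zero]; exact Submodule.zero_mem _
  | add x y _ _ hx hy => rw [map_add]; exact Submodule.add_mem _ hx hy
  | smul z x _ hx => rw [Derivation.map_smul]; exact Submodule.smul_mem _ _ hx

/-- If `ξ x = F x` with `F ∈ R` and `x ≠ 0` is a finite sum of homogeneous elements of `K`, then `x` is homogeneous.

Plan: let `x = ∑ x c` (`exists_dec`), `b` the largest degree (`Finset.max'` of the support of the decomposition) and suppose that the largest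
degree `e` of `F ∈ RH R ξ (0 ≤ ·)` is positive; then the component of degree `b + e` of `F x` is the product of the top
components, which is not zero, but `ξ x` has no component of degree `> b` (uniqueness of decompositions `IsDec.unique`, or
`exists_lead` applied to `-ξ`).  So `F` has degree `0`, is a constant `z` (`IsCone.const`), `ξ x = z x`; comparing the components
`x c ≠ 0`: `z = c`. -/
theorem IsCone.eig_of_mul (h : IsCone R ξ) {x F : K} (hx0 : x ≠ 0)
    (hx : x ∈ Hsp (ξ : K →ₗ[ℂ] K) ⊤ (fun _ => True)) (hF : F ∈ R) (hFx : ξ x = F * x) :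
    ∃ b : ℝ, ξ x = (b : ℂ) • x := by
  by_cases hF0 : F = 0
  · refine ⟨0, ?_⟩
    rw [hFx, hF0, zero_mul, Complex.ofReal_zero, zero_smul]
  set ζ : Derivation ℂ K K := -ξ with hζ
  have hζx : ζ x = -(F * x) := by rw [hζ, Derivation.neg_apply, hFx]
  obtain ⟨b, y, -, -, hy0, hy, hxy⟩ := exists_lead hx0 (dg1_neg hx)
  obtain ⟨e, G, he, hGR, hG0, hG, hFG⟩ := exists_lead hF0 (dg1_neg (h.span F hF))
  have hy' : ζ y = (b : ℂ) • y := hy
  have hG' : ζ G = (e : ℂ) • G := hG
  have hxy' : x - y ∈ Hsp (ζ : K →ₗ[ℂ] K) ⊤ (fun c => b < c) :=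
    hsp_mono le_rfl (fun c hc => hc.2) hxy
  have hyb : y ∈ Hsp (ζ : K →ₗ[ℂ] K) ⊤ (fun c => b ≤ c) := mem_hsp Submodule.mem_top le_rfl hy
  have hxb : x ∈ Hsp (ζ : K →ₗ[ℂ] K) ⊤ (fun c => b ≤ c) := by
    have h1 : x = y + (x - y) := by abel
    rw [h1]
    exact Submodule.add_mem _ hyb (hsp_mono le_rfl (fun c hc => le_of_lt hc) hxy')
  have he0 : ¬ e < 0 := by
    intro he0
    have hFe : F ∈ Hsp (ζ : K →ₗ[ℂ] K) ⊤ (fun c => e ≤ c) := by
      have h1 : F = G + (F - G) := by abel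
      rw [h1]
      exact Submodule.add_mem _ (mem_hsp Submodule.mem_top le_rfl hG)
        (hsp_mono le_top (fun c hc => le_of_lt hc.2) hFG)
    have h1 : F * (x - y) ∈ Hsp (ζ : K →ₗ[ℂ] K) ⊤ (fun c => e + b < c) :=
      hsp_mul_top (P := fun c => e ≤ c) (Q := fun c => b < c)
        (fun _ _ ha hb => by linarith) hFe hxy'
    have h2 : (F - G) * y ∈ Hsp (ζ : K →ₗ[ℂ] K) ⊤ (fun c => e + b < c) :=
      hsp_mul_top (P := fun c => e < c) (Q := fun c => b ≤ c)
        (fun _ _ ha hb => by linarith) (hsp_mono le_top (fun c hc => hc.2) hFG) hyb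
    have h3 : ζ x ∈ Hsp (ζ : K →ₗ[ℂ] K) ⊤ (fun c => e + b < c) :=
      hsp_mono le_rfl (fun c hc => by
        have hc' : b ≤ c := hc
        linarith) (dg1_pres hxb)
    have h4 : G * y = -ζ x - F * (x - y) - (F - G) * y := by
      rw [hζx]
      ring
    have h5 : G * y ∈ Hsp (ζ : K →ₗ[ℂ] K) ⊤ (fun c => e + b < c) := by
      rw [h4]
      exact Submodule.sub_mem _ (Submodule.sub_mem _ (Submodule.neg_mem _ h3) h1) h2
    exact lt_irrefl (e + b) (prop_of_mem_hsp (mul_ne_zero hG0 hy0) (eig_mul hG' hy') h5)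
  have he1 : e = 0 := le_antisymm (by linarith) (not_lt.mp he0)
  have hFGe : F = G := by
    have h1 : F - G ∈ Hsp (ζ : K →ₗ[ℂ] K) ⊤ (fun _ => False) := by
      refine hsp_mono le_top (fun c hc => ?_) hFG
      obtain ⟨hc1, hc2⟩ := hc
      linarith
    obtain ⟨f, hf⟩ := exists_dec h1
    have h2 : f = 0 := by
      ext c
      by_contra hc
      exact hf.prop c hc
    have h3 := hf.sum
    rw [h2, Finsupp.sum_zero_index] at h3
    exact (sub_eq_zero.mp h3.symm)
  have hξF : ξ F = 0 := by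
    have h1 : ζ F = 0 := by rw [hFGe, hG', he1, Complex.ofReal_zero, zero_smul]
    rw [hζ, Derivation.neg_apply] at h1
    exact neg_eq_zero.mp h1
  obtain ⟨z, hz⟩ := h.const F hF hξF
  have hζz : ζ x = -(z • x) := by rw [hζx, hz, Algebra.smul_def]
  have hbz : (b : ℂ) + z = 0 := by
    by_contra hne
    have h1 : ζ (x - y) = -(z • x) - (b : ℂ) • y := by rw [map_sub, hζz, hy']
    have h2 : ((b : ℂ) + z) • y = -(ζ (x - y)) - z • (x - y) := by
      rw [h1, smul_sub, add_smul]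
      abel
    have h3 : ((b : ℂ) + z) • y ∈ Hsp (ζ : K →ₗ[ℂ] K) ⊤ (fun c => b < c) := by
      rw [h2]
      exact Submodule.sub_mem _ (Submodule.neg_mem _ (dg1_pres hxy'))
        (Submodule.smul_mem _ _ hxy')
    have h4 : y ∈ Hsp (ζ : K →ₗ[ℂ] K) ⊤ (fun c => b < c) := by
      have h5 := Submodule.smul_mem _ ((b : ℂ) + z)⁻¹ h3
      rwa [smul_smul, inv_mul_cancel₀ hne, one_smul] at h5
    exact lt_irrefl b (prop_of_mem_hsp hy0 hy h4)
  refine ⟨-b, ?_⟩
  have h6 : z = -(b : ℂ) := by linear_combination hbz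
  rw [hFx, hz, ← Algebra.smul_def, h6, Complex.ofReal_neg]

private theorem dg2_one : (1 : K) ∈ Hsp (ξ : K →ₗ[ℂ] K) ⊤ (fun _ => True) :=
  mem_hsp Submodule.mem_top trivial eig_one

private theorem dg2_mul {x y : K} (hx : x ∈ Hsp (ξ : K →ₗ[ℂ] K) ⊤ (fun _ => True))
    (hy : y ∈ Hsp (ξ : K →ₗ[ℂ] K) ⊤ (fun _ => True)) :
    x * y ∈ Hsp (ξ : K →ₗ[ℂ] K) ⊤ (fun _ => True) :=
  hsp_mul_top (P := fun _ => True) (Q := fun _ => True) (fun _ _ _ _ => trivial) hx hy

private theorem dg2_prod {ι : Type} (s : Finset ι) (x : ι → K)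
    (hx : ∀ i ∈ s, x i ∈ Hsp (ξ : K →ₗ[ℂ] K) ⊤ (fun _ => True)) :
    ∏ i ∈ s, x i ∈ Hsp (ξ : K →ₗ[ℂ] K) ⊤ (fun _ => True) := by
  classical
  induction s using Finset.induction_on with
  | empty => rw [Finset.prod_empty]; exact dg2_one
  | insert a s ha ih =>
    rw [Finset.prod_insert ha]
    exact dg2_mul (hx a (Finset.mem_insert_self a s))
      (ih fun i hi => hx i (Finset.mem_insert_of_mem hi))

private theorem dg2_det {m : ℕ} {M : Matrix (Fin m) (Fin m) K}
    (hM : ∀ i j, M i j ∈ Hsp (ξ : K →ₗ[ℂ] K) ⊤ (fun _ => True)) :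
    M.det ∈ Hsp (ξ : K →ₗ[ℂ] K) ⊤ (fun _ => True) := by
  rw [Matrix.det_apply]
  refine Submodule.sum_mem _ fun σ _ => ?_
  have h1 : ∏ i, M (σ i) i ∈ Hsp (ξ : K →ₗ[ℂ] K) ⊤ (fun _ => True) :=
    dg2_prod _ _ fun i _ => hM _ _
  rcases Int.units_eq_one_or (Equiv.Perm.sign σ) with hs | hs
  · rw [hs, one_smul]
    exact h1
  · rw [hs]
    have e : ((-1 : ℤˣ) • ∏ i, M (σ i) i) = -∏ i, M (σ i) i := by
      rw [Units.smul_def]
      simp
    rw [e]
    exact Submodule.neg_mem _ h1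

private theorem dg2_inv {q : K} {b : ℝ} (hq : ξ q = (b : ℂ) • q) :
    q⁻¹ ∈ Hsp (ξ : K →ₗ[ℂ] K) ⊤ (fun _ => True) := by
  refine mem_hsp (c := -b) Submodule.mem_top trivial ?_
  show ξ q⁻¹ = _
  by_cases hq0 : q = 0
  · rw [hq0, inv_zero, map_zero, smul_zero]
  · have h1 : q⁻¹ ^ 2 * q = q⁻¹ := by
      rw [pow_two, mul_assoc, inv_mul_cancel₀ hq0, mul_one]
    have h2 : ξ q⁻¹ = -(q⁻¹ ^ 2 * ((b : ℂ) • q)) := by
      rw [Derivation.leibniz_inv, hq, neg_smul, smul_eq_mul]
    rw [h2, mul_smul_comm, h1, Complex.ofReal_neg, neg_smul]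

/-- The Gram determinant of a nondegenerate form in a homogeneous frame is homogeneous, of degree twice the log
discrepancy of `wt ξ`.

Plan: let `J` be the endomorphism with `η (J D) E = Lf ξ η D E` (`exists_endo`); it preserves `Der R` (`hη.perfect`, `Lf_reg`,
`h.pres`), so `F = trF D g J ∈ R` (`trF_mem`), and `ξ Δ = F Δ` by `der_det` (see the end of the proof of `slice_det`:
`⁅ξ, D i⁆ = 0` by `frame_comm`).  `Δ` is a finite sum of homogeneous elements: each entry `η (D i) (D j)` is (multiply `D i` by a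
homogeneous denominator `IsCone.der_den`, the value is in `R`, divide by the homogeneous denominators), and sums and products are (`hsp_mul_top`,
`Matrix.det_apply`).  Then `IsCone.eig_of_mul`; the degree `b` is `v.val Δ` (`IsWt.val_eig`), and `a = v.val Δ / 2` by
`hasLogDisc_of_frame` (`IsWt.logDer_of_comm`) and the uniqueness of the greatest lower bound. -/
theorem gram_eig (h : IsCone R ξ) {v : RVal K} (hv : IsWt R ξ v)
    (hN : ∀ x : K, IsIntegral R x → x ∈ R) {n : ℕ} (hfin : Module.Finite K (Derivation ℂ K K))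
    {η : Form K} (hη : IsNondeg R η) {a : ℝ} (ha : HasLogDisc n η v a)
    {D : Fin (2 * n) → Derivation ℂ K K} {g : Fin (2 * n) → K} (hD : IsFrame D g)
    (hg : ∀ i, ∃ c : ℝ, ξ (g i) = (c : ℂ) • g i) :
    ξ (gram η D).det = ((2 * a : ℝ) : ℂ) • (gram η D).det := by
  have hΔ := gram_det_ne_zero hD hη.alt hη.inj
  have hξD := frame_comm hD hg
  obtain ⟨J, hJ⟩ := exists_endo hfin hη.inj (Lf ξ η)
  have hJP : PresE R J := by
    intro E hE
    refine hη.perfect _ fun F hF => ?_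
    rw [hJ]
    exact Lf_reg hη.reg h.pres hE hF
  have hF : trF D g J ∈ R := trF_mem h hN hD hJP
  have hdet : ξ (gram η D).det = trF D g J * (gram η D).det := by
    rw [trF_eq]
    refine der_det _ _ _ fun i j => ?_
    have e5 : ξ (gram η D i j) = η (J (D i)) (D j) := by
      rw [hJ, Lf_apply, hξD i, hξD j]
      simp [gram]
    rw [e5, Matrix.mul_apply]
    conv_lhs => rw [hD.complete (J (D i))]
    rw [map_sum, LinearMap.sum_apply]
    refine Finset.sum_congr rfl fun k _ => ?_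
    rw [map_smul, LinearMap.smul_apply, smul_eq_mul]
    rfl
  have hden : ∀ i, ∃ (q : K) (b : ℝ), q ∈ R ∧ q ≠ 0 ∧ ξ q = (b : ℂ) • q ∧ Pres R (q • D i) := by
    intro i
    refine h.der_den (c := 0) ?_
    rw [hξD i]
    simp
  choose q b hq1 hq2 hq3 hq4 using hden
  have hmem : (gram η D).det ∈ Hsp (ξ : K →ₗ[ℂ] K) ⊤ (fun _ => True) := by
    refine dg2_det fun i j => ?_
    have h1 : q i * q j * η (D i) (D j) ∈ R := by
      have h2 := hη.reg _ _ (hq4 i) (hq4 j)
      have h3 : η (q i • D i) (q j • D j) = q i * q j * η (D i) (D j) := by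
        simp only [map_smul, LinearMap.smul_apply, smul_eq_mul]
        ring
      rwa [h3] at h2
    have h3 : gram η D i j = (q i)⁻¹ * (q j)⁻¹ * (q i * q j * η (D i) (D j)) := by
      show η (D i) (D j) = _
      have h4 := hq2 i
      have h5 := hq2 j
      field_simp
    rw [h3]
    exact dg2_mul (dg2_mul (dg2_inv (hq3 i)) (dg2_inv (hq3 j)))
      (hsp_mono le_top (fun _ _ => trivial) (h.span _ h1))
  obtain ⟨c, hc⟩ := h.eig_of_mul hΔ hmem hF hdet
  have hval := hv.val_eig h hΔ hc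
  have ha2 := ha.unique (hasLogDisc_of_frame hD (fun i => hv.logDer_of_comm h (hξD i)) hΔ)
  have h6 : 2 * a = c := by
    rw [ha2, hval]
    ring
  rw [h6]
  exact hc

end Pool.Agent.Helper37.SD
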