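import Pool.Agent.Helper37.SD.Jac

/-!
# T*, form half: the matrix identity (pure algebra)

`N`, `β` alternating matrices of closed 2-forms in a commuting frame, `P` the inverse of `N`.  The
coefficients of `(N - s β)⁻¹ = ∑ s ^ j P (β P) ^ j` are alternating and almost divergence free.
-/

set_option autoImplicit false

namespace Pool.Agent.Helper37.SD

open Module

variable {K : Type} [Field K] [Algebra ℂ K]

/-- the matrix of a closed 2-form in a commuting frame -/
structure ClM {d : ℕ} (D : Fin d → Derivation ℂ K K) (N : Matrix (Fin d) (Fin d) K) : Prop where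
  alt : ∀ i j, N i j = -N j i
  cl : ∀ a b c, D a (N b c) + D b (N c a) + D c (N a b) = 0

/-- the matrix of the derivatives -/
def dmat {d : ℕ} (X : Derivation ℂ K K) (M : Matrix (Fin d) (Fin d) K) :
    Matrix (Fin d) (Fin d) K := fun i j => X (M i j)

theorem dmat_mul {d : ℕ} (X : Derivation ℂ K K) (M M' : Matrix (Fin d) (Fin d) K) :
    dmat X (M * M') = dmat X M * M' + M * dmat X M' := by
  ext i j
  simp only [dmat, Matrix.mul_apply, Matrix.add_apply, map_sum, Derivation.leibniz, smul_eq_mul]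
  rw [← Finset.sum_add_distrib]
  refine Finset.sum_congr rfl fun k _ => ?_
  ring

private theorem tfm_trace {d : ℕ} (X : Derivation ℂ K K) (M : Matrix (Fin d) (Fin d) K) :
    X M.trace = (dmat X M).trace := by
  simp only [Matrix.trace, Matrix.diag, dmat, map_sum]

private theorem tfm_pow {d : ℕ} (X : Derivation ℂ K K) (M : Matrix (Fin d) (Fin d) K) (i : ℕ) :
    ∀ j : ℕ, (M ^ j * dmat X (M ^ (i + 1))).trace = ((i : K) + 1) * (M ^ (i + j) * dmat X M).trace := by
  induction i with
  | zero =>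
    intro j
    simp
  | succ i ih =>
    intro j
    have h1 : dmat X (M ^ (i + 1 + 1)) = dmat X (M ^ (i + 1)) * M + M ^ (i + 1) * dmat X M := by
      rw [pow_succ M (i + 1), dmat_mul]
    have h2 : (M ^ j * (dmat X (M ^ (i + 1)) * M)).trace = (M ^ (j + 1) * dmat X (M ^ (i + 1))).trace := by
      rw [← Matrix.mul_assoc, Matrix.trace_mul_comm, ← Matrix.mul_assoc, ← pow_succ']
    have h3 : M ^ j * (M ^ (i + 1) * dmat X M) = M ^ (i + 1 + j) * dmat X M := by
      rw [← Matrix.mul_assoc, ← pow_add, add_comm j (i + 1)]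
    rw [h1, Matrix.mul_add, Matrix.trace_add, h2, h3, ih (j + 1)]
    have h4 : i + (j + 1) = i + 1 + j := by omega
    rw [h4]
    push_cast
    ring

/-- derivative of the trace of a power: `X (tr M ^ (i + 1)) = (i + 1) tr (M ^ i X M)`.  Induction: for all `A` with
... simplest: `dmat X (M ^ (i + 1)) = ∑ k ∈ range (i + 1), M ^ k * dmat X M * M ^ (i - k)`, then `Matrix.trace_mul_comm`. -/
theorem der_trace_pow {d : ℕ} (X : Derivation ℂ K K) (M : Matrix (Fin d) (Fin d) K) (i : ℕ) :
    X (M ^ (i + 1)).trace = ((i : K) + 1) * (M ^ i * dmat X M).trace := by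
  have h := tfm_pow X M i 0
  rw [pow_zero, Matrix.one_mul, add_zero] at h
  rw [tfm_trace, h]

/-- `Q j = P (β P) ^ j` -/
def Qm {d : ℕ} (P β : Matrix (Fin d) (Fin d) K) (j : ℕ) : Matrix (Fin d) (Fin d) K :=
  P * (β * P) ^ j

/-- `P` and all `Q j` are alternating: `(P (β P) ^ j)ᵀ = (Pᵀ βᵀ) ^ j Pᵀ = (P β) ^ j (-P)` -/
theorem Qm_alt {d : ℕ} {N P β : Matrix (Fin d) (Fin d) K} (hN : ∀ i j, N i j = -N j i)
    (hβ : ∀ i j, β i j = -β j i) (hP : P * N = 1) (j : ℕ) (a b : Fin d) :
    Qm P β j a b = -Qm P β j b a := by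
  have hNt : N.transpose = -N := by
    ext x y
    rw [Matrix.transpose_apply, Matrix.neg_apply]
    exact hN y x
  have hβt : β.transpose = -β := by
    ext x y
    rw [Matrix.transpose_apply, Matrix.neg_apply]
    exact hβ y x
  have hPt : P.transpose = -P := by
    have h1 : N.transpose * P.transpose = 1 := by
      rw [← Matrix.transpose_mul, hP, Matrix.transpose_one]
    rw [hNt, Matrix.neg_mul] at h1
    have h2 : P * (N * P.transpose) = P.transpose := by
      rw [← Matrix.mul_assoc, hP, Matrix.one_mul]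
    have h3 : N * P.transpose = -1 := by
      rw [← h1, neg_neg]
    rw [h3, Matrix.mul_neg, Matrix.mul_one] at h2
    exact h2.symm
  have hQ : (Qm P β j).transpose = -Qm P β j := by
    have h4 : SemiconjBy P ((β * P) ^ j) ((P * β) ^ j) :=
      SemiconjBy.pow_right (show P * (β * P) = P * β * P from (Matrix.mul_assoc P β P).symm) j
    have h5 : P * (β * P) ^ j = (P * β) ^ j * P := h4
    unfold Qm
    rw [Matrix.transpose_mul, Matrix.transpose_pow, Matrix.transpose_mul, hPt, hβt,
      neg_mul_neg, Matrix.mul_neg, h5]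
  have h6 := congrFun (congrFun hQ b) a
  rw [Matrix.transpose_apply, Matrix.neg_apply] at h6
  exact h6

private theorem tfm_one {d : ℕ} (X : Derivation ℂ K K) :
    dmat X (1 : Matrix (Fin d) (Fin d) K) = 0 := by
  ext i j
  by_cases h : i = j
  · subst h
    simp [dmat]
  · simp [dmat, h]

private theorem tfm_inv {d : ℕ} (X : Derivation ℂ K K) {N P : Matrix (Fin d) (Fin d) K}
    (hP : P * N = 1) : dmat X P = -(P * dmat X N * P) := by
  have hNP : N * P = 1 := mul_eq_one_comm.mp hP
  have h1 := dmat_mul X P N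
  rw [hP, tfm_one] at h1
  have h2 : dmat X P * N = -(P * dmat X N) := eq_neg_of_add_eq_zero_left h1.symm
  calc dmat X P = dmat X P * (N * P) := by rw [hNP, Matrix.mul_one]
    _ = (dmat X P * N) * P := by rw [Matrix.mul_assoc]
    _ = -(P * dmat X N * P) := by rw [h2, Matrix.neg_mul]

omit [Algebra ℂ K] in
private theorem tfm_succ {d : ℕ} (P β : Matrix (Fin d) (Fin d) K) (j : ℕ) :
    Qm P β (j + 1) = Qm P β j * (β * P) := by
  unfold Qm
  rw [pow_succ, Matrix.mul_assoc]

/-- product rule: `X (Q j) = - ∑ i ≤ j, Q i (X N) Q (j - i) + ∑ i < j, Q i (X β) Q (j - 1 - i)`.  Induction on `j`: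
`Q (j + 1) = Q j β P`, `X P = - P (X N) P` (from `P N = 1`, `N P = 1`), `Q i β P = Q (i + 1)`. -/
theorem dmat_Qm {d : ℕ} (X : Derivation ℂ K K) {N P β : Matrix (Fin d) (Fin d) K}
    (hP : P * N = 1) (j : ℕ) :
    dmat X (Qm P β j) = -(∑ i ∈ Finset.range (j + 1), Qm P β i * dmat X N * Qm P β (j - i)) +
      ∑ i ∈ Finset.range j, Qm P β i * dmat X β * Qm P β (j - 1 - i) := by
  induction j with
  | zero =>
    have h0 : Qm P β 0 = P := by
      unfold Qm
      rw [pow_zero, Matrix.mul_one]
    simp only [zero_add, Finset.sum_range_one, Finset.range_zero, Finset.sum_empty, add_zero,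
      Nat.sub_self, h0]
    exact tfm_inv X hP
  | succ j ih =>
    have h0 : Qm P β 0 = P := by
      unfold Qm
      rw [pow_zero, Matrix.mul_one]
    have hd : dmat X (β * P) = dmat X β * P - β * (P * dmat X N * P) := by
      rw [dmat_mul, tfm_inv X hP, Matrix.mul_neg, sub_eq_add_neg]
    have hA : (∑ i ∈ Finset.range (j + 1), Qm P β i * dmat X N * Qm P β (j - i)) * (β * P) =
        ∑ i ∈ Finset.range (j + 1), Qm P β i * dmat X N * Qm P β (j + 1 - i) := by
      rw [Finset.sum_mul]
      refine Finset.sum_congr rfl fun i hi => ?_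
      have hi' : i < j + 1 := Finset.mem_range.mp hi
      have h1 : j + 1 - i = (j - i) + 1 := by omega
      rw [h1, tfm_succ, Matrix.mul_assoc (Qm P β i * dmat X N)]
    have hB : (∑ i ∈ Finset.range j, Qm P β i * dmat X β * Qm P β (j - 1 - i)) * (β * P) =
        ∑ i ∈ Finset.range j, Qm P β i * dmat X β * Qm P β (j + 1 - 1 - i) := by
      rw [Finset.sum_mul]
      refine Finset.sum_congr rfl fun i hi => ?_
      have hi' : i < j := Finset.mem_range.mp hi
      have h1 : j + 1 - 1 - i = (j - 1 - i) + 1 := by omega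
      rw [h1, tfm_succ, Matrix.mul_assoc (Qm P β i * dmat X β)]
    have hj1 : j + 1 - (j + 1) = 0 := Nat.sub_self _
    have hj2 : j + 1 - 1 - j = 0 := by omega
    have hC : Qm P β j * (β * (P * dmat X N * P)) = Qm P β (j + 1) * dmat X N * P := by
      rw [tfm_succ]
      simp only [Matrix.mul_assoc]
    rw [tfm_succ, dmat_mul, ih, Matrix.add_mul, Matrix.neg_mul, hA, hB, hd, Matrix.mul_sub, hC,
      Finset.sum_range_succ (fun i => Qm P β i * dmat X N * Qm P β (j + 1 - i)) (j + 1),
      Finset.sum_range_succ (fun i => Qm P β i * dmat X β * Qm P β (j + 1 - 1 - i)) j, hj1, hj2, h0,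
      ← Matrix.mul_assoc (Qm P β j) (dmat X β) P]
    abel

/-- For a closed matrix `N` and an alternating matrix `Q`:
`∑_{e a} D_a (N c e) Q e a = 1/2 tr ((D_c N) Q)`.  Antisymmetrise in `(a, e)`: twice the left side is
`∑ (D_a (N c e) - D_e (N c a)) Q e a = ∑ (D_a (N c e) + D_e (N a c)) Q e a = - ∑ D_c (N e a) Q e a`. -/
theorem closed_contract {d : ℕ} {D : Fin d → Derivation ℂ K K} {N Q : Matrix (Fin d) (Fin d) K}
    (hN : ClM D N) (hQ : ∀ a b, Q a b = -Q b a) (c : Fin d) :
    ∑ a, ∑ e, D a (N c e) * Q e a = (1 / 2) * (dmat (D c) N * Q).trace := by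
  have htr : (dmat (D c) N * Q).trace = ∑ a, ∑ e, D c (N a e) * Q e a := by
    rw [Matrix.trace]
    refine Finset.sum_congr rfl fun a _ => ?_
    rw [Matrix.diag_apply, Matrix.mul_apply]
    rfl
  have hsw : ∑ a, ∑ e, D a (N c e) * Q e a = -∑ a, ∑ e, D e (N c a) * Q e a := by
    rw [Finset.sum_comm, ← Finset.sum_neg_distrib]
    refine Finset.sum_congr rfl fun a _ => ?_
    rw [← Finset.sum_neg_distrib]
    refine Finset.sum_congr rfl fun e _ => ?_
    rw [hQ a e]
    ring
  have h2 : (2 : K) * ∑ a, ∑ e, D a (N c e) * Q e a = ∑ a, ∑ e, D c (N a e) * Q e a := by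
    have h3 : (2 : K) * ∑ a, ∑ e, D a (N c e) * Q e a =
        ∑ a, ∑ e, D a (N c e) * Q e a - ∑ a, ∑ e, D e (N c a) * Q e a := by
      rw [two_mul]
      nth_rewrite 2 [hsw]
      rw [sub_eq_add_neg]
    rw [h3, ← Finset.sum_sub_distrib]
    refine Finset.sum_congr rfl fun a _ => ?_
    rw [← Finset.sum_sub_distrib]
    refine Finset.sum_congr rfl fun e _ => ?_
    have h4 := hN.cl a e c
    rw [hN.alt e c, map_neg] at h4
    have h5 : D a (N c e) - D e (N c a) = D c (N a e) := by linear_combination -h4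
    rw [← sub_mul, h5]
  haveI : CharZero K := charZero_of_injective_algebraMap (algebraMap ℂ K).injective
  have h20 : (2 : K) ≠ 0 := two_ne_zero
  rw [htr, ← h2]
  field_simp

/-- contraction of `M (D a N) Q` over `a` -/
private theorem contract_row {d : ℕ} {D : Fin d → Derivation ℂ K K} {N Q : Matrix (Fin d) (Fin d) K}
    (hN : ClM D N) (hQ : ∀ a b, Q a b = -Q b a) (M : Matrix (Fin d) (Fin d) K) (b : Fin d) :
    ∑ a, (M * dmat (D a) N * Q) b a = (1 / 2) * ∑ c, M b c * (dmat (D c) N * Q).trace := by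
  have h1 : ∀ a, (M * dmat (D a) N * Q) b a = ∑ c, M b c * ∑ e, D a (N c e) * Q e a := by
    intro a
    rw [Matrix.mul_assoc, Matrix.mul_apply]
    refine Finset.sum_congr rfl fun c _ => ?_
    rw [Matrix.mul_apply]
    rfl
  rw [Finset.sum_congr rfl fun a _ => h1 a, Finset.sum_comm, Finset.mul_sum]
  refine Finset.sum_congr rfl fun c _ => ?_
  rw [← Finset.mul_sum, closed_contract hN hQ c]
  ring

private theorem Qm_zero {d : ℕ} (P β : Matrix (Fin d) (Fin d) K) : Qm P β 0 = P := by
  unfold Qm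
  rw [pow_zero, Matrix.mul_one]

/-- the derivative of the trace of a power of `β P` -/
private theorem der_trace_pow' {d : ℕ} (X : Derivation ℂ K K) {N P β : Matrix (Fin d) (Fin d) K}
    (hP : P * N = 1) (i : ℕ) : X ((β * P) ^ (i + 1)).trace = ((i : K) + 1) *
      ((dmat X β * Qm P β i).trace - (dmat X N * Qm P β (i + 1)).trace) := by
  have hd : dmat X P = -(P * dmat X N * P) := by
    have h1 := dmat_Qm X (β := β) hP 0
    rw [Qm_zero, Finset.sum_range_zero, add_zero, zero_add, Finset.sum_range_one, Nat.sub_zero, Qm_zero] at h1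
    exact h1
  rw [der_trace_pow, dmat_mul, hd]
  congr 1
  rw [Matrix.mul_add, Matrix.trace_add, Matrix.mul_neg, Matrix.mul_neg, Matrix.trace_neg, ← sub_eq_add_neg]
  congr 1
  · rw [Matrix.trace_mul_comm, Matrix.mul_assoc]
    rfl
  · have h1 : (β * P) ^ i * (β * (P * dmat X N * P)) = (β * P) ^ (i + 1) * (dmat X N * P) := by
      rw [pow_succ]
      simp only [Matrix.mul_assoc]
    rw [h1, Matrix.trace_mul_comm, Matrix.mul_assoc]
    rfl

/-- **the divergence identity** -/
theorem mat_div {d : ℕ} {D : Fin d → Derivation ℂ K K} {N P β : Matrix (Fin d) (Fin d) K}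
    (hN : ClM D N) (hβ : ClM D β) (hP : P * N = 1) (j : ℕ) (b : Fin d) :
    ∑ a, D a (Qm P β j b a) = -(1 / 2) * ∑ e, Qm P β j b e * (P * dmat (D e) N).trace +
      (1 / 2) * ∑ i ∈ Finset.range j, (1 / ((i : K) + 1)) *
        ∑ e, Qm P β (j - 1 - i) b e * D e ((β * P) ^ (i + 1)).trace := by
  haveI : CharZero K := charZero_of_injective_algebraMap (algebraMap ℂ K).injective
  have hQ : ∀ i a b, Qm P β i a b = -Qm P β i b a := fun i a b => Qm_alt hN.alt hβ.alt hP i a b
  have hL : ∑ a, D a (Qm P β j b a) =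
      -(∑ i ∈ Finset.range (j + 1), (1 / 2) * ∑ c, Qm P β i b c * (dmat (D c) N * Qm P β (j - i)).trace) +
        ∑ i ∈ Finset.range j, (1 / 2) * ∑ c, Qm P β i b c * (dmat (D c) β * Qm P β (j - 1 - i)).trace := by
    have h1 : ∀ a, D a (Qm P β j b a) =
        -(∑ i ∈ Finset.range (j + 1), (Qm P β i * dmat (D a) N * Qm P β (j - i)) b a) +
          ∑ i ∈ Finset.range j, (Qm P β i * dmat (D a) β * Qm P β (j - 1 - i)) b a := by
      intro a
      have h2 := congrFun (congrFun (dmat_Qm (D a) (β := β) hP j) b) a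
      rw [Matrix.add_apply, Matrix.neg_apply, Matrix.sum_apply, Matrix.sum_apply] at h2
      exact h2
    rw [Finset.sum_congr rfl fun a _ => h1 a, Finset.sum_add_distrib, Finset.sum_neg_distrib,
      Finset.sum_comm, Finset.sum_comm (s := Finset.univ) (t := Finset.range j)]
    congr 1
    · congr 1
      exact Finset.sum_congr rfl fun i _ => contract_row hN (hQ _) _ b
    · exact Finset.sum_congr rfl fun i _ => contract_row hβ (hQ _) _ b
  have hR : ∑ i ∈ Finset.range j, (1 / ((i : K) + 1)) *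
        ∑ e, Qm P β (j - 1 - i) b e * D e ((β * P) ^ (i + 1)).trace =
      ∑ i ∈ Finset.range j, (∑ e, Qm P β i b e * (dmat (D e) β * Qm P β (j - 1 - i)).trace -
        ∑ e, Qm P β i b e * (dmat (D e) N * Qm P β (j - i)).trace) := by
    rw [← Finset.sum_range_reflect]
    refine Finset.sum_congr rfl fun i hi => ?_
    have hij : i < j := Finset.mem_range.1 hi
    have h1 : j - 1 - (j - 1 - i) = i := by omega
    have h2 : j - 1 - i + 1 = j - i := by omega
    rw [h1, ← Finset.sum_sub_distrib, Finset.mul_sum]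
    refine Finset.sum_congr rfl fun e _ => ?_
    rw [der_trace_pow' (D e) hP, h2]
    have h3 : (((j - 1 - i : ℕ) : K) + 1) ≠ 0 := Nat.cast_add_one_ne_zero _
    field_simp
  rw [hL, hR, Finset.sum_range_succ, Nat.sub_self, Qm_zero, Finset.sum_sub_distrib]
  have h4 : ∑ c, Qm P β j b c * (dmat (D c) N * P).trace = ∑ e, Qm P β j b e * (P * dmat (D e) N).trace :=
    Finset.sum_congr rfl fun e _ => by rw [Matrix.trace_mul_comm]
  rw [h4, ← Finset.mul_sum, ← Finset.mul_sum]
  ring

/-
Plan of `mat_div`: by `dmat_Qm` (for `X = D a`) and `closed_contract` (with `Q = Q (j - i)`, alternating by `Qm_alt`) the left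
side is `- 1/2 ∑_{i ≤ j} ∑_c (Q i) b c tr ((D_c N) Q (j - i)) + 1/2 ∑_{i < j} ∑_c (Q i) b c tr ((D_c β) Q (j - 1 - i))`.
The term `i = j` of the first sum is the first term of the right side (`Q 0 = P`).  For `i < j` put `m = j - 1 - i`:
`D_c tr (β P) ^ (m + 1) = (m + 1) tr ((β P) ^ m ((D_c β) P - β P (D_c N) P)) = (m + 1) (tr ((D_c β) Q m) - tr ((D_c N) Q (m + 1)))`
by `der_trace_pow`; reindex `i ↦ j - 1 - i` (`Finset.sum_range_reflect`).
-/

end Pool.Agent.Helper37.SD
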