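import Pool.Agent.Helper37.SD.Jac

/-!
# T*, form half: two recursions (pure algebra)

`p` is the sequence of the coefficients of `exp (-1/2 ∑ t (i + 1) s ^ (i + 1) / (i + 1))`.
-/

set_option autoImplicit false

namespace Pool.Agent.Helper37.SD

open Module

variable {K : Type} [Field K] [Algebra ℂ K]

/-- the recursion for `p` -/
structure IsP (t p : ℕ → K) : Prop where
  zero : p 0 = 1
  succ : ∀ m : ℕ, 2 * ((m : K) + 1) * p (m + 1) =
    -∑ i ∈ Finset.range (m + 1), p (m - i) * t (i + 1)

omit [Algebra ℂ K] in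
private noncomputable def Prec_p (t : ℕ → K) : ℕ → K
  | 0 => 1
  | (m + 1) => -(∑ i : Fin (m + 1), Prec_p t (m - i) * t (i + 1)) / (2 * ((m : K) + 1))

private lemma Prec_charZero (K : Type) [Field K] [Algebra ℂ K] : CharZero K :=
  charZero_of_injective_algebraMap (algebraMap ℂ K).injective

private lemma Prec_ne (m : ℕ) : 2 * ((m : K) + 1) ≠ 0 := by
  haveI := Prec_charZero K
  have h : ((2 * (m + 1) : ℕ) : K) ≠ 0 := Nat.cast_ne_zero.2 (by omega)
  push_cast at h
  exact h

private lemma Prec_ne1 (m : ℕ) : ((m : K) + 1) ≠ 0 := by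
  haveI := Prec_charZero K
  exact Nat.cast_add_one_ne_zero m

private lemma Prec_swap (m : ℕ) (f : ℕ → ℕ → K) :
    ∑ i ∈ Finset.range (m + 1), ∑ a ∈ Finset.range (m - i), f i a =
      ∑ a ∈ Finset.range m, ∑ i ∈ Finset.range (m - a), f i a := by
  apply Finset.sum_comm'
  intro x y
  simp only [Finset.mem_range]
  omega

private lemma Prec_swap2 (j : ℕ) (f : ℕ → ℕ → K) :
    ∑ i ∈ Finset.range (j + 1), ∑ a ∈ Finset.range i, f (i - 1 - a) a =
      ∑ b ∈ Finset.range (j + 1), ∑ a ∈ Finset.range (j - b), f b a := by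
  rw [Finset.sum_sigma', Finset.sum_sigma']
  refine Finset.sum_nbij' (fun x => ⟨x.1 - 1 - x.2, x.2⟩) (fun x => ⟨x.1 + 1 + x.2, x.2⟩) ?_ ?_ ?_ ?_ ?_
  · rintro ⟨i, a⟩ h
    simp only [Finset.mem_sigma, Finset.mem_range] at h ⊢
    omega
  · rintro ⟨i, a⟩ h
    simp only [Finset.mem_sigma, Finset.mem_range] at h ⊢
    omega
  · rintro ⟨i, a⟩ h
    simp only [Finset.mem_sigma, Finset.mem_range] at h
    have : i - 1 - a + 1 + a = i := by omega
    simp only [this]
  · rintro ⟨i, a⟩ h
    have : i + 1 + a - 1 - a = i := by omega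
    simp only [this]
  · rintro ⟨i, a⟩ h
    rfl

theorem exists_isP (t : ℕ → K) : ∃ p, IsP t p := by
  refine ⟨Prec_p t, by rw [Prec_p], fun m => ?_⟩
  have h := Prec_ne (K := K) m
  rw [Prec_p, mul_div_cancel₀ _ h, Finset.sum_range]

/-- Strong induction on `m`. -/
theorem IsP.mem {t p : ℕ → K} (h : IsP t p) {R : Subalgebra ℂ K} (ht : ∀ i, t (i + 1) ∈ R)
    (m : ℕ) : p m ∈ R := by
  induction m using Nat.strong_induction_on with
  | _ m ih =>
    rcases m with _ | m
    · rw [h.zero]
      exact R.one_mem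
    · have h1 := h.succ m
      have h2 := Prec_ne (K := K) m
      have h3 : p (m + 1) = (-(1 / (2 * ((m : ℂ) + 1)))) •
          ∑ i ∈ Finset.range (m + 1), p (m - i) * t (i + 1) := by
        rw [Algebra.smul_def, map_neg, map_div₀, map_one, map_mul, map_add, map_one, map_natCast,
          map_ofNat]
        have h4 : p (m + 1) = (2 * ((m : K) + 1) * p (m + 1)) / (2 * ((m : K) + 1)) := by
          rw [mul_div_cancel_left₀ _ h2]
        rw [h4, h1]
        ring
      rw [h3]
      refine R.smul_mem (R.sum_mem fun i _ => R.mul_mem (ih _ (by omega)) (ht i)) _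

/-- `Y (p m) = - 1/2 ∑ p (m - a) Y (t a) / a`.  Strong induction on `m`: apply `Y` to `2 m p m = - ∑_a p (m - a) t a`; by
induction `- ∑_a Y (p (m - a)) t a = 1/2 ∑_b (Y (t b) / b) ∑_a p (m - b - a) t a = - ∑_b (Y (t b) / b) (m - b) p (m - b)`, so
`2 m Y (p m) = - ∑_b (Y (t b) / b) p (m - b) (m - b + b)`. -/
theorem IsP.der {t p : ℕ → K} (h : IsP t p) (Y : Derivation ℂ K K) (m : ℕ) :
    Y (p m) = -(1 / 2) * ∑ a ∈ Finset.range m, p (m - 1 - a) * (Y (t (a + 1)) / ((a : K) + 1)) := by
  induction m using Nat.strong_induction_on with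
  | _ m ih =>
    rcases m with _ | m
    · rw [h.zero, Derivation.map_one_eq_zero, Finset.range_zero, Finset.sum_empty, mul_zero]
    · haveI := Prec_charZero K
      have h2 := Prec_ne (K := K) m
      have h1 := congrArg Y (h.succ m)
      have e1 : Y (2 * ((m : K) + 1) * p (m + 1)) = 2 * ((m : K) + 1) * Y (p (m + 1)) := by
        have e : (2 * ((m : K) + 1) : K) = algebraMap ℂ K (2 * ((m : ℂ) + 1)) := by
          rw [map_mul, map_add, map_one, map_natCast, map_ofNat]
        rw [e, ← Algebra.smul_def, Derivation.map_smul, Algebra.smul_def]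
      rw [e1, map_neg, map_sum] at h1
      have e2 : ∀ i ∈ Finset.range (m + 1), Y (p (m - i) * t (i + 1)) =
          p (m - i) * Y (t (i + 1)) + t (i + 1) * Y (p (m - i)) := by
        intro i _
        rw [Derivation.leibniz, smul_eq_mul, smul_eq_mul]
      rw [Finset.sum_congr rfl e2, Finset.sum_add_distrib] at h1
      have e3 : ∑ i ∈ Finset.range (m + 1), t (i + 1) * Y (p (m - i)) =
          ∑ a ∈ Finset.range (m + 1), ((m : K) - a) * p (m - a) *
            (Y (t (a + 1)) / ((a : K) + 1)) := by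
        have e4 : ∀ i ∈ Finset.range (m + 1), t (i + 1) * Y (p (m - i)) =
            ∑ a ∈ Finset.range (m - i), -(1 / 2) * (p (m - i - 1 - a) * t (i + 1)) *
              (Y (t (a + 1)) / ((a : K) + 1)) := by
          intro i hi
          rw [Finset.mem_range] at hi
          rw [ih (m - i) (by omega), Finset.mul_sum, Finset.mul_sum]
          exact Finset.sum_congr rfl fun a _ => by ring
        rw [Finset.sum_congr rfl e4, Prec_swap m fun i a =>
          -(1 / 2) * (p (m - i - 1 - a) * t (i + 1)) * (Y (t (a + 1)) / ((a : K) + 1))]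
        rw [Finset.sum_range_succ (fun a => ((m : K) - a) * p (m - a) *
            (Y (t (a + 1)) / ((a : K) + 1)))]
        rw [sub_self, zero_mul, zero_mul, add_zero]
        refine Finset.sum_congr rfl fun a ha => ?_
        rw [Finset.mem_range] at ha
        have e5 := h.succ (m - 1 - a)
        have e6 : m - 1 - a + 1 = m - a := by omega
        have e7 : ((m - 1 - a : ℕ) : K) + 1 = (m : K) - a := by
          have : (((m - 1 - a : ℕ) + 1 + a : ℕ) : K) = (m : K) := by
            congr 1
            omega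
          push_cast at this
          linear_combination this
        rw [e6, e7] at e5
        have e8 : ∀ i ∈ Finset.range (m - a), -(1 / 2) * (p (m - i - 1 - a) * t (i + 1)) *
            (Y (t (a + 1)) / ((a : K) + 1)) = -(1 / 2) * (Y (t (a + 1)) / ((a : K) + 1)) *
              (p (m - 1 - a - i) * t (i + 1)) := by
          intro i _
          have : m - i - 1 - a = m - 1 - a - i := by omega
          rw [this]
          ring
        rw [Finset.sum_congr rfl e8, ← Finset.mul_sum]
        linear_combination (-(1 / 2) * (Y (t (a + 1)) / ((a : K) + 1))) * e5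
      have e9 : ∑ i ∈ Finset.range (m + 1), p (m - i) * Y (t (i + 1)) =
          ∑ a ∈ Finset.range (m + 1), ((a : K) + 1) * p (m - a) *
            (Y (t (a + 1)) / ((a : K) + 1)) := by
        refine Finset.sum_congr rfl fun a _ => ?_
        have := Prec_ne1 (K := K) a
        field_simp
      rw [e3, e9, ← Finset.sum_add_distrib] at h1
      have e10 : ∀ a ∈ Finset.range (m + 1), ((a : K) + 1) * p (m - a) *
            (Y (t (a + 1)) / ((a : K) + 1)) + ((m : K) - a) * p (m - a) *
            (Y (t (a + 1)) / ((a : K) + 1)) = ((m : K) + 1) *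
              (p (m - a) * (Y (t (a + 1)) / ((a : K) + 1))) := by
        intro a _
        ring
      rw [Finset.sum_congr rfl e10, ← Finset.mul_sum] at h1
      have h3 := Prec_ne1 (K := K) m
      have h4 : (m : K) + 1 ≠ 0 := h3
      rw [Nat.add_sub_cancel]
      have h5 : ((m : K) + 1) * (2 * Y (p (m + 1)) + ∑ a ∈ Finset.range (m + 1),
          p (m - a) * (Y (t (a + 1)) / ((a : K) + 1))) = 0 := by
        linear_combination h1
      have h6 := (mul_eq_zero.1 h5).resolve_left h4
      linear_combination (1 / 2) * h6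

/-- The combination of the divergence identities.  `dv f` stands for the divergence of `f Y`:
if `dv j = r j + 1/2 ∑_{i < j} Y (j - 1 - i) (t (i + 1)) / (i + 1)` for all `j`, where `Y j` are derivations, then
`∑_{i ≤ j} (p (j - i) dv i + Y i (p (j - i))) = ∑_{i ≤ j} p (j - i) r i`.  By `IsP.der` for `Y i` both sides are finite sums; the
terms `p (j - i) 1/2 Y (i - 1 - a) (t (a + 1)) / (a + 1)` and `- 1/2 p (j - b - 1 - a) Y b (t (a + 1)) / (a + 1)` cancel
(`b = i - 1 - a`): sums over `(a, b)` with `a + b + 1 ≤ j`. -/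
theorem IsP.comb {t p : ℕ → K} (h : IsP t p) (Y : ℕ → Derivation ℂ K K) (dv r : ℕ → K)
    (hdv : ∀ j, dv j = r j + (1 / 2) * ∑ i ∈ Finset.range j,
      (1 / ((i : K) + 1)) * (Y (j - 1 - i)) (t (i + 1))) (j : ℕ) :
    ∑ i ∈ Finset.range (j + 1), (p (j - i) * dv i + Y i (p (j - i))) =
      ∑ i ∈ Finset.range (j + 1), p (j - i) * r i := by
  rw [Finset.sum_add_distrib]
  have e1 : ∀ i ∈ Finset.range (j + 1), p (j - i) * dv i = p (j - i) * r i +
      ∑ a ∈ Finset.range i, (1 / 2) * (p (j - (i - 1 - a) - 1 - a) *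
        ((Y (i - 1 - a)) (t (a + 1)) / ((a : K) + 1))) := by
    intro i hi
    rw [Finset.mem_range] at hi
    rw [hdv i, mul_add, Finset.mul_sum, Finset.mul_sum]
    congr 1
    refine Finset.sum_congr rfl fun a ha => ?_
    rw [Finset.mem_range] at ha
    have : j - (i - 1 - a) - 1 - a = j - i := by omega
    rw [this]
    ring
  have e2 : ∀ b ∈ Finset.range (j + 1), (Y b) (p (j - b)) =
      -∑ a ∈ Finset.range (j - b), (1 / 2) * (p (j - b - 1 - a) *
        ((Y b) (t (a + 1)) / ((a : K) + 1))) := by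
    intro b _
    rw [h.der (Y b) (j - b), Finset.mul_sum, ← Finset.sum_neg_distrib]
    exact Finset.sum_congr rfl fun a _ => by ring
  rw [Finset.sum_congr rfl e1, Finset.sum_congr rfl e2, Finset.sum_add_distrib,
    Prec_swap2 j fun b a => (1 / 2) * (p (j - b - 1 - a) * ((Y b) (t (a + 1)) / ((a : K) + 1))),
    Finset.sum_neg_distrib]
  ring

end Pool.Agent.Helper37.SD
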