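import Pool.Agent.Helper37.TF.Defs
import Pool.Agent.Helper37.TF.Mat
import Pool.Agent.Helper37.TF.Prec

/-!
# T*, form half: divergences of the vector fields `J ^ j G ξ`
-/

set_option autoImplicit false

namespace Pool.Agent.Helper37.SD

open Module

variable {K : Type} [Field K] [Algebra ℂ K] {R : Subalgebra ℂ K} {ξ : Derivation ℂ K K}

/-- The matrix of a closed alternating form in a commuting frame satisfies `ClM`. -/
theorem clM_of_closed {d : ℕ} {D : Fin d → Derivation ℂ K K} {ω : Form K}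
    (halt : ∀ D, ω D D = 0) (hcl : Closed ω) (hcomm : ∀ i j, ⁅D i, D j⁆ = 0) :
    ClM D (fun i j => ω (D i) (D j)) where
  alt i j := alt_neg halt (D i) (D j)
  cl a b c := by
    have h := hcl (D a) (D b) (D c)
    rw [hcomm a b, hcomm a c, hcomm b c, map_zero, LinearMap.zero_apply, LinearMap.zero_apply,
      LinearMap.zero_apply, alt_neg halt (D a) (D c), map_neg] at h
    show D a (ω (D b) (D c)) + D b (ω (D c) (D a)) + D c (ω (D a) (D b)) = 0
    rw [← h]
    ring

private theorem div_frame_comm {d : ℕ} {D : Fin d → Derivation ℂ K K} {g : Fin d → K}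
    (hD : IsFrame D g) (i j : Fin d) : ⁅D i, D j⁆ = 0 := by
  refine hD.comm (c := fun l => if i = l then 1 else 0) (fun l => ?_) j
  rw [hD.apply]
  by_cases h : i = l
  · rw [if_pos h, if_pos h, one_smul]
  · rw [if_neg h, if_neg h, zero_smul]

/-- matrix of the endomorphism `η⁻¹ β` -/
private theorem div_matF {n : ℕ} {D : Fin (2 * n) → Derivation ℂ K K} {g : Fin (2 * n) → K}
    (hD : IsFrame D g) {η β : Form K} {P : Matrix (Fin (2 * n)) (Fin (2 * n)) K}
    (hP : gram η D * P = 1) {J : Derivation ℂ K K →ₗ[K] Derivation ℂ K K}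
    (hJ : ∀ D E, η (J D) E = β D E) :
    matF D g J = Matrix.of (fun i j => β (D i) (D j)) * P := by
  have h1 : matF D g J * gram η D = Matrix.of (fun i j => β (D i) (D j)) := by
    ext i l
    rw [Matrix.mul_apply, Matrix.of_apply, ← hJ]
    conv_rhs => rw [hD.complete (J (D i))]
    rw [map_sum, LinearMap.sum_apply]
    refine Finset.sum_congr rfl fun k _ => ?_
    rw [map_smul, LinearMap.smul_apply, smul_eq_mul]
    rfl
  rw [← h1, Matrix.mul_assoc, hP, Matrix.mul_one]

/-- the divergence of `J ^ j G ξ` -/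
private theorem div_first {d : ℕ} {D : Fin d → Derivation ℂ K K} {θ : Fin d → K}
    {Γ Q : Matrix (Fin d) (Fin d) K} {k : K} (hQ : ∀ a b, Q a b = -Q b a)
    (hθ : ∀ a b, D a (θ b) - D b (θ a) = k * Γ a b) :
    ∑ a, ∑ b, D a (θ b) * Q b a = (k / 2) * (Γ * Q).trace := by
  have h2 : (2 : K) ≠ 0 := by
    have := (algebraMap ℂ K).injective
    intro h
    have h3 : algebraMap ℂ K 2 = algebraMap ℂ K 0 := by rw [map_ofNat, map_zero, h]
    exact two_ne_zero (this h3)
  have h1 : ∑ a, ∑ b, D a (θ b) * Q b a = -∑ a, ∑ b, D b (θ a) * Q b a := by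
    rw [Finset.sum_comm, ← Finset.sum_neg_distrib]
    refine Finset.sum_congr rfl fun a _ => ?_
    rw [← Finset.sum_neg_distrib]
    refine Finset.sum_congr rfl fun b _ => ?_
    rw [hQ a b]
    ring
  have h3 : (2 : K) * ∑ a, ∑ b, D a (θ b) * Q b a = k * (Γ * Q).trace := by
    rw [two_mul]
    nth_rewrite 2 [h1]
    rw [← sub_eq_add_neg, ← Finset.sum_sub_distrib, Matrix.trace, Finset.mul_sum]
    refine Finset.sum_congr rfl fun a _ => ?_
    rw [← Finset.sum_sub_distrib, Matrix.diag_apply, Matrix.mul_apply, Finset.mul_sum]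
    refine Finset.sum_congr rfl fun b _ => ?_
    rw [← sub_mul, hθ]
    ring
  field_simp
  linear_combination h3

/-- The divergence of `J ^ j G ξ`, where `η J = β`, `η G = γ`, `η`, `β`, `γ` closed and `γ` homogeneous of weight `κ`.

Plan.  `N`, `β`, `γ` matrices in the frame, `P = N⁻¹`; `matF D g J = β P`, `matF D g G = γ P` (as `η (J (D i)) (D k) = ∑ l, matF i l N l k`, see
the end of the proof of `slice_det`), `matF D g (E ↦ J ^ j (G E)) = γ P (β P) ^ j = γ * Qm P β j` (`matF_mul`, `matF_pow`).  The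
frame is commuting (`IsFrame.comm` with `c l = if i = l then 1 else 0`, as in `degen_symplectic`) and commutes with `ξ`
(`frame_comm`); `ξ = ∑ c i • D i` with constants `c i` (`hD.complete ξ`), so the coefficients of `Y = J ^ j (G ξ)` are
`Y (g a) / g a = ∑_b θ b * Q b a`, `θ b = ∑_i c i γ i b = γ ξ (D b)`, `Q = Qm P β j`.
`∑_a D_a (θ b * Q b a)`: the first part is `∑_{a b} D_a (θ b) Q b a = 1/2 ∑ (D_a (θ b) - D_b (θ a)) Q b a = κ/2 ∑ γ a b Q b a =
κ/2 trF (E ↦ J ^ j (G E))` (`Q` alternating `Qm_alt`; `D_a (θ b) - D_b (θ a) = ξ (γ a b) = κ γ a b` by closedness at `ξ, D a, D b`, or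
from `ClM` summed with the constants `c`, and `homForm_eig`).  The second part is given by `mat_div`; its first term cancels with
`Y Δ / (2 Δ) = 1/2 ∑_e y e tr (P (D_e N))` (`der_det`).  The rest is the sum on the right side,
`((J ^ k) (G ξ)) f = ∑_e (∑_b θ b * Qm P β k b e) * D e f`. -/
theorem div_pow {n : ℕ} (hfin : Module.Finite K (Derivation ℂ K K))
    {D : Fin (2 * n) → Derivation ℂ K K} {g : Fin (2 * n) → K} (hD : IsFrame D g)
    (hg : ∀ i, ∃ c : ℝ, ξ (g i) = (c : ℂ) • g i) {η β γ : Form K}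
    (hηa : ∀ D, η D D = 0) (hηc : Closed η) (hηi : ∀ D, (∀ E, η D E = 0) → D = 0)
    (hβa : ∀ D, β D D = 0) (hβc : Closed β) (hγa : ∀ D, γ D D = 0) (hγc : Closed γ) {κ : ℝ}
    (hκ : HomForm ξ κ γ) {J G : Derivation ℂ K K →ₗ[K] Derivation ℂ K K}
    (hJ : ∀ D E, η (J D) E = β D E) (hG : ∀ D E, η (G D) E = γ D E) (j : ℕ) :
    dvF D g (gram η D).det ((J ^ j) (G ξ)) =
      (((κ / 2 : ℝ) : ℂ)) • trF D g (fun E => (J ^ j) (G E)) +
        (1 / 2) * ∑ i ∈ Finset.range j, (1 / ((i : K) + 1)) *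
          ((J ^ (j - 1 - i)) (G ξ)) (trF D g (fun E => (J ^ (i + 1)) E)) := by
  classical
  choose c hc using hg
  have hcomm := div_frame_comm hD
  have hξD : ∀ i, ⁅ξ, D i⁆ = 0 := hD.comm hc
  have hdet : (gram η D).det ≠ 0 := gram_det_ne_zero hD hηa hηi
  set N : Matrix (Fin (2 * n)) (Fin (2 * n)) K := gram η D with hNdef
  set P : Matrix (Fin (2 * n)) (Fin (2 * n)) K := N⁻¹ with hPdef
  have hPN : P * N = 1 := Matrix.nonsing_inv_mul _ (isUnit_iff_ne_zero.mpr hdet)
  have hNP : N * P = 1 := Matrix.mul_nonsing_inv _ (isUnit_iff_ne_zero.mpr hdet)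
  set B : Matrix (Fin (2 * n)) (Fin (2 * n)) K := Matrix.of fun i j => β (D i) (D j) with hBdef
  set Γ : Matrix (Fin (2 * n)) (Fin (2 * n)) K := Matrix.of fun i j => γ (D i) (D j) with hΓdef
  have hmJ : matF D g J = B * P := div_matF hD hNP hJ
  have hmG : matF D g G = Γ * P := div_matF hD hNP hG
  have hN : ClM D N := clM_of_closed hηa hηc hcomm
  have hB : ClM D B := clM_of_closed hβa hβc hcomm
  have hmJk : ∀ k : ℕ, matF D g (fun E => (J ^ k) E) = (B * P) ^ k := fun k => by
    rw [matF_pow hD, hmJ]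
  have hm : ∀ k : ℕ, matF D g (fun E => (J ^ k) (G E)) = Γ * Qm P B k := fun k => by
    rw [matF_mul hD (J ^ k) G, hmG, hmJk k, Matrix.mul_assoc]
    rfl
  set θ : Fin (2 * n) → K := fun b => γ ξ (D b) with hθdef
  have hθ : ∀ b, θ b = ∑ i, (ξ (g i) / g i) * Γ i b := fun b => by
    show γ ξ (D b) = _
    conv_lhs => rw [hD.complete ξ]
    rw [map_sum, LinearMap.sum_apply]
    refine Finset.sum_congr rfl fun i _ => ?_
    rw [map_smul, LinearMap.smul_apply, smul_eq_mul]
    rfl
  have hcoef : ∀ (k : ℕ) (a : Fin (2 * n)),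
      ((J ^ k) (G ξ)) (g a) / g a = ∑ b, θ b * Qm P B k b a := fun k a => by
    have h1 : ((J ^ k) (G ξ)) (g a) / g a =
        ∑ i, (ξ (g i) / g i) * (((J ^ k) (G (D i))) (g a) / g a) := by
      conv_lhs => rw [hD.complete ξ]
      rw [map_sum, map_sum, der_sum_apply, Finset.sum_div]
      refine Finset.sum_congr rfl fun i _ => ?_
      rw [map_smul, map_smul, Derivation.smul_apply, smul_eq_mul, mul_div_assoc]
    rw [h1]
    have h2 : ∀ i, ((J ^ k) (G (D i))) (g a) / g a = ∑ b, Γ i b * Qm P B k b a := fun i => by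
      have h3 := congrFun (congrFun (hm k) i) a
      rw [Matrix.mul_apply] at h3
      exact h3
    simp only [h2, hθ, Finset.mul_sum, Finset.sum_mul]
    rw [Finset.sum_comm]
    refine Finset.sum_congr rfl fun b _ => Finset.sum_congr rfl fun i _ => ?_
    ring
  have happ : ∀ (k : ℕ) (f : K), ((J ^ k) (G ξ)) f =
      ∑ e, (∑ b, θ b * Qm P B k b e) * D e f := fun k f => by
    conv_lhs => rw [hD.complete ((J ^ k) (G ξ))]
    rw [der_sum_apply]
    refine Finset.sum_congr rfl fun e _ => ?_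
    rw [Derivation.smul_apply, smul_eq_mul, hcoef]
  have hΔ : ∀ e, D e N.det = (P * dmat (D e) N).trace * N.det := fun e => by
    rw [Matrix.trace_mul_comm]
    refine der_det (D e) N (dmat (D e) N * P) fun i k => ?_
    rw [Matrix.mul_assoc, hPN, Matrix.mul_one]
    rfl
  have hQalt := Qm_alt hN.alt hB.alt hPN
  have hθd : ∀ a b, D a (θ b) - D b (θ a) = algebraMap ℂ K (κ : ℂ) * Γ a b := fun a b => by
    have h1 := hγc ξ (D a) (D b)
    rw [hξD a, hξD b, hcomm a b, map_zero, LinearMap.zero_apply, LinearMap.zero_apply,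
      LinearMap.zero_apply] at h1
    have h2 := homForm_eig hκ (hξD a) (hξD b)
    rw [h2, Algebra.smul_def] at h1
    show D a (γ ξ (D b)) - D b (γ ξ (D a)) = algebraMap ℂ K (κ : ℂ) * γ (D a) (D b)
    linear_combination -h1
  have h2ne : (2 : K) ≠ 0 := by
    intro h
    have h3 : algebraMap ℂ K 2 = algebraMap ℂ K 0 := by rw [map_ofNat, map_zero, h]
    exact two_ne_zero ((algebraMap ℂ K).injective h3)
  -- the divergence part
  have hA : ∑ a, D a (((J ^ j) (G ξ)) (g a) / g a) =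
      ∑ a, ∑ b, D a (θ b) * Qm P B j b a + ∑ b, θ b * ∑ a, D a (Qm P B j b a) := by
    have h1 : ∀ a, D a (((J ^ j) (G ξ)) (g a) / g a) =
        ∑ b, D a (θ b) * Qm P B j b a + ∑ b, θ b * D a (Qm P B j b a) := fun a => by
      rw [hcoef, map_sum, ← Finset.sum_add_distrib]
      refine Finset.sum_congr rfl fun b _ => ?_
      rw [Derivation.leibniz, smul_eq_mul, smul_eq_mul]
      ring
    simp only [h1, Finset.sum_add_distrib, Finset.mul_sum]
    congr 1
    rw [Finset.sum_comm]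
  have hC : ((J ^ j) (G ξ)) N.det / (2 * N.det) =
      (1 / 2) * ∑ e, (∑ b, θ b * Qm P B j b e) * (P * dmat (D e) N).trace := by
    rw [happ]
    simp only [hΔ]
    rw [Finset.mul_sum, Finset.sum_div]
    refine Finset.sum_congr rfl fun e _ => ?_
    field_simp
  have hE : ∑ b, θ b * ∑ a, D a (Qm P B j b a) =
      -((1 / 2) * ∑ e, (∑ b, θ b * Qm P B j b e) * (P * dmat (D e) N).trace) +
      (1 / 2) * ∑ i ∈ Finset.range j, (1 / ((i : K) + 1)) *
          ((J ^ (j - 1 - i)) (G ξ)) (trF D g (fun E => (J ^ (i + 1)) E)) := by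
    have h1 : ∀ b, θ b * ∑ a, D a (Qm P B j b a) =
        -((1 / 2) * ∑ e, (θ b * Qm P B j b e) * (P * dmat (D e) N).trace) +
        (1 / 2) * ∑ i ∈ Finset.range j, (1 / ((i : K) + 1)) *
          ∑ e, (θ b * Qm P B (j - 1 - i) b e) * D e ((B * P) ^ (i + 1)).trace := fun b => by
      rw [mat_div hN hB hPN j b]
      have e1 : ∑ e, (θ b * Qm P B j b e) * (P * dmat (D e) N).trace =
          θ b * ∑ e, Qm P B j b e * (P * dmat (D e) N).trace := by
        rw [Finset.mul_sum]
        exact Finset.sum_congr rfl fun e _ => by ring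
      have e2 : ∑ i ∈ Finset.range j, (1 / ((i : K) + 1)) *
          ∑ e, (θ b * Qm P B (j - 1 - i) b e) * D e ((B * P) ^ (i + 1)).trace =
          θ b * ∑ i ∈ Finset.range j, (1 / ((i : K) + 1)) *
          ∑ e, Qm P B (j - 1 - i) b e * D e ((B * P) ^ (i + 1)).trace := by
        rw [Finset.mul_sum]
        refine Finset.sum_congr rfl fun i _ => ?_
        rw [Finset.mul_sum, Finset.mul_sum, Finset.mul_sum]
        exact Finset.sum_congr rfl fun e _ => by ring
      rw [e1, e2]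
      ring
    simp only [h1]
    rw [Finset.sum_add_distrib, Finset.sum_neg_distrib, ← Finset.mul_sum, ← Finset.mul_sum]
    congr 1
    · congr 2
      rw [Finset.sum_comm]
      exact Finset.sum_congr rfl fun e _ => by rw [Finset.sum_mul]
    · congr 1
      rw [Finset.sum_comm]
      refine Finset.sum_congr rfl fun i _ => ?_
      rw [← Finset.mul_sum]
      congr 1
      rw [happ, Finset.sum_comm]
      refine Finset.sum_congr rfl fun e _ => ?_
      rw [Finset.sum_mul, trF_eq, hmJk]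
  have hF : (((κ / 2 : ℝ) : ℂ)) • trF D g (fun E => (J ^ j) (G E)) =
      (algebraMap ℂ K (κ : ℂ) / 2) * (Γ * Qm P B j).trace := by
    rw [trF_eq, hm, Algebra.smul_def]
    have e : (((κ / 2 : ℝ) : ℂ)) = (κ : ℂ) / 2 := by push_cast; ring
    rw [e, map_div₀, map_ofNat]
  unfold dvF
  rw [hA, hC, hE, hF, div_first (fun a b => hQalt j a b) hθd]
  ring

/-- `B j = ∑_{i ≤ j} p (j - i) J ^ i G` -/
noncomputable def Bend (J G : Derivation ℂ K K →ₗ[K] Derivation ℂ K K) (p : ℕ → K) (j : ℕ) :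
    Derivation ℂ K K →ₗ[K] Derivation ℂ K K :=
  ∑ i ∈ Finset.range (j + 1), p (j - i) • ((J ^ i).comp G)

/-- The divergence of `B j ξ` is `κ / 2` times the trace of `B j`: `IsP.comb` with `dv i = dvF (J ^ i (G ξ))`, `div_pow`, `dvF_sum`, `dvF_smul`,
`trF_smul`. -/
theorem div_Bend {n : ℕ} (hfin : Module.Finite K (Derivation ℂ K K))
    {D : Fin (2 * n) → Derivation ℂ K K} {g : Fin (2 * n) → K} (hD : IsFrame D g)
    (hg : ∀ i, ∃ c : ℝ, ξ (g i) = (c : ℂ) • g i) {η β γ : Form K}
    (hηa : ∀ D, η D D = 0) (hηc : Closed η) (hηi : ∀ D, (∀ E, η D E = 0) → D = 0)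
    (hβa : ∀ D, β D D = 0) (hβc : Closed β) (hγa : ∀ D, γ D D = 0) (hγc : Closed γ) {κ : ℝ}
    (hκ : HomForm ξ κ γ) {J G : Derivation ℂ K K →ₗ[K] Derivation ℂ K K}
    (hJ : ∀ D E, η (J D) E = β D E) (hG : ∀ D E, η (G D) E = γ D E) {p : ℕ → K}
    (hp : IsP (fun i => trF D g (fun E => (J ^ i) E)) p) (j : ℕ) :
    dvF D g (gram η D).det (Bend J G p j ξ) = (((κ / 2 : ℝ) : ℂ)) • trF D g (Bend J G p j) := by
  have hB : ∀ E, Bend J G p j E = ∑ i ∈ Finset.range (j + 1), p (j - i) • ((J ^ i) (G E)) := by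
    intro E
    unfold Bend
    rw [LinearMap.sum_apply]
    exact Finset.sum_congr rfl fun i _ => by rw [LinearMap.smul_apply, LinearMap.comp_apply]
  have e1 : trF D g (Bend J G p j) =
      ∑ i ∈ Finset.range (j + 1), p (j - i) * trF D g (fun E => (J ^ i) (G E)) := by
    unfold trF
    have h1 : ∀ a, Bend J G p j (D a) (g a) / g a =
        ∑ i ∈ Finset.range (j + 1), p (j - i) * ((J ^ i) (G (D a)) (g a) / g a) := by
      intro a
      rw [hB, der_sum_apply, Finset.sum_div]
      exact Finset.sum_congr rfl fun i _ => by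
        rw [Derivation.smul_apply, smul_eq_mul, mul_div_assoc]
    rw [Finset.sum_congr rfl fun a _ => h1 a, Finset.sum_comm]
    exact Finset.sum_congr rfl fun i _ => by rw [Finset.mul_sum]
  have e2 := hp.comb (fun i => (J ^ i) (G ξ)) (fun i => dvF D g (gram η D).det ((J ^ i) (G ξ)))
    (fun i => (((κ / 2 : ℝ) : ℂ)) • trF D g (fun E => (J ^ i) (G E)))
    (fun i => div_pow hfin hD hg hηa hηc hηi hβa hβc hγa hγc hκ hJ hG i) j
  rw [hB, dvF_sum, Finset.sum_congr rfl fun i _ => dvF_smul hD _ _ _, e2, e1, Finset.smul_sum]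
  exact Finset.sum_congr rfl fun i _ => mul_smul_comm _ _ _

end Pool.Agent.Helper37.SD
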