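import Pool.Agent.Helper37.TF.Defs

/-!
# T*, form half: decomposition of endomorphisms of `Der R` into homogeneous endomorphisms
-/

set_option autoImplicit false

namespace Pool.Agent.Helper37.SD

open Module

variable {K : Type} [Field K] [Algebra ℂ K] {R : Subalgebra ℂ K} {ξ : Derivation ℂ K K}

/-- `B ↦ (E ↦ ⁅ξ, B E⁆ - B ⁅ξ, E⁆)` -/
private noncomputable def edA (ξ : Derivation ℂ K K) :
    (Derivation ℂ K K →ₗ[K] Derivation ℂ K K) →ₗ[ℂ] (Derivation ℂ K K →ₗ[K] Derivation ℂ K K) where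
  toFun B :=
    { toFun := fun E => ⁅ξ, B E⁆ - B ⁅ξ, E⁆
      map_add' := fun E F => by
        rw [map_add, lie_add, lie_add, map_add]
        abel
      map_smul' := fun f E => by
        rw [map_smul, lie_fsmul, lie_fsmul, map_add, map_smul, map_smul, RingHom.id_apply, smul_sub]
        abel }
  map_add' B C := by
    ext E : 1
    show ⁅ξ, B E + C E⁆ - (B ⁅ξ, E⁆ + C ⁅ξ, E⁆) = (⁅ξ, B E⁆ - B ⁅ξ, E⁆) + (⁅ξ, C E⁆ - C ⁅ξ, E⁆)
    rw [lie_add]
    abel
  map_smul' z B := by
    ext E : 1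
    show ⁅ξ, z • B E⁆ - z • B ⁅ξ, E⁆ = z • (⁅ξ, B E⁆ - B ⁅ξ, E⁆)
    rw [lie_smul, smul_sub]

private theorem edA_apply (B : Derivation ℂ K K →ₗ[K] Derivation ℂ K K) (E : Derivation ℂ K K) :
    edA ξ B E = ⁅ξ, B E⁆ - B ⁅ξ, E⁆ := rfl

/-- The endomorphisms of `Der R`. -/
private def edW (R : Subalgebra ℂ K) : Submodule ℂ (Derivation ℂ K K →ₗ[K] Derivation ℂ K K) where
  carrier := {B | PresE R B}
  add_mem' := fun hB hC E hE x hx => R.add_mem (hB E hE x hx) (hC E hE x hx)
  zero_mem' := fun _ _ _ _ => R.zero_mem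
  smul_mem' := fun z _ hB E hE x hx => R.smul_mem (hB E hE x hx) z

private theorem ed_csmul (B : Derivation ℂ K K →ₗ[K] Derivation ℂ K K) (z : ℂ) (E : Derivation ℂ K K) :
    B (z • E) = z • B E := by
  rw [← algebraMap_smul K z E, map_smul, algebraMap_smul]

/-- An endomorphism of `Der R` is a finite sum of homogeneous endomorphisms of `Der R`.

Plan.  On the `ℂ`-space `V = (Der K →ₗ[K] Der K)` let `A B = (E ↦ ⁅ξ, B E⁆ - B ⁅ξ, E⁆)` (it is `K`-linear in `E`, `lie_fsmul`) and
`W = {B | PresE R B}`, which `A` preserves (`h.pres`, brackets of derivations of `R`).  Choose a `K`-basis of `Der K` of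
homogeneous derivations `E i` of `R`, of degrees `e i` (multiply the homogeneous frame of `exists_hom_frame`, `frame_comm`, by denominators,
`IsCone.der_den`).  `B (E i)` is a derivation of `R`, hence a finite sum of homogeneous derivations of `R` (`IsCone.der_dec'`,
`exists_dec`); `(A B) (E i) = (adx ξ - e i) (B (E i))`.  With `S` the union of the degrees of `B (E i)` minus `e i` the product
`∏_{s ∈ S} (A - s)` kills `B` (as in the proof of `der_dec`: `aeval`, `aeval_of_mem_hsp`), so `dec_of_aeval` and `exists_dec` give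
the components. -/
theorem endo_dec (h : IsCone R ξ) (hfin : Module.Finite K (Derivation ℂ K K))
    {B : Derivation ℂ K K →ₗ[K] Derivation ℂ K K} (hB : PresE R B) :
    ∃ (S : Finset ℝ) (c : ℝ → (Derivation ℂ K K →ₗ[K] Derivation ℂ K K)),
      (∀ s, PresE R (c s) ∧ ∀ E, ⁅ξ, c s E⁆ = c s ⁅ξ, E⁆ + (s : ℂ) • c s E) ∧
        (∀ s, s ∉ S → c s = 0) ∧ ∀ E, B E = ∑ s ∈ S, c s E := by
  classical
  obtain ⟨D, g, hD, hg⟩ := exists_hom_frame h hfin rfl
  have hcomm := frame_comm hD (fun i => (hg i).2)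
  have hcomm' : ∀ i, ⁅ξ, D i⁆ = ((0 : ℝ) : ℂ) • D i := fun i => by
    rw [hcomm i]
    simp
  choose q b hqR hq0 hqb hqD using fun i => h.der_den (hcomm' i)
  have hE : ∀ i, ⁅ξ, q i • D i⁆ = ((b i : ℝ) : ℂ) • (q i • D i) := fun i => by
    have := hom_smul (hcomm' i) (hqb i)
    rwa [add_zero] at this
  choose f hf using fun i => exists_dec (h.der_dec' (hB _ (hqD i)))
  let S : Finset ℝ := Finset.univ.biUnion fun i => (f i).support.image fun a => a - b i
  let M : Fin (finrank K (Derivation ℂ K K)) → (Derivation ℂ K K →ₗ[ℂ] Derivation ℂ K K) :=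
    fun i => adx ξ - ((b i : ℝ) : ℂ) • LinearMap.id
  have hstep : ∀ i (C : Derivation ℂ K K →ₗ[K] Derivation ℂ K K),
      (edA ξ C) (q i • D i) = (M i) (C (q i • D i)) := by
    intro i C
    show ⁅ξ, C (q i • D i)⁆ - C ⁅ξ, q i • D i⁆ =
      ⁅ξ, C (q i • D i)⁆ - ((b i : ℝ) : ℂ) • C (q i • D i)
    rw [hE i, ed_csmul]
  have hpow : ∀ i (k : ℕ) (C : Derivation ℂ K K →ₗ[K] Derivation ℂ K K),
      ((edA ξ ^ k) C) (q i • D i) = ((M i) ^ k) (C (q i • D i)) := by
    intro i k
    induction k with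
    | zero => intro C; rfl
    | succ k ih =>
      intro C
      rw [pow_succ, pow_succ]
      show ((edA ξ ^ k) (edA ξ C)) (q i • D i) = ((M i) ^ k) ((M i) (C (q i • D i)))
      rw [ih, hstep]
  have hpoly : ∀ (p : Polynomial ℂ) i (C : Derivation ℂ K K →ₗ[K] Derivation ℂ K K),
      ((Polynomial.aeval (edA ξ) p) C) (q i • D i) =
        (Polynomial.aeval (M i) p) (C (q i • D i)) := by
    intro p i C
    induction p using Polynomial.induction_on' with
    | add p p' hp hp' =>
      rw [map_add, map_add]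
      show ((Polynomial.aeval (edA ξ) p) C) (q i • D i) + ((Polynomial.aeval (edA ξ) p') C) (q i • D i) =
        (Polynomial.aeval (M i) p) (C (q i • D i)) + (Polynomial.aeval (M i) p') (C (q i • D i))
      rw [hp, hp']
    | monomial n z =>
      rw [Polynomial.aeval_monomial, Polynomial.aeval_monomial]
      show (algebraMap ℂ (Module.End ℂ (Derivation ℂ K K →ₗ[K] Derivation ℂ K K)) z
          ((edA ξ ^ n) C)) (q i • D i) =
        algebraMap ℂ (Module.End ℂ (Derivation ℂ K K)) z ((M i ^ n) (C (q i • D i)))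
      rw [Module.algebraMap_end_apply, Module.algebraMap_end_apply, ← hpow i]
      rfl
  have hzero : (Polynomial.aeval (edA ξ)
      (∏ s ∈ S, (Polynomial.X - Polynomial.C ((s : ℝ) : ℂ)))) B = 0 := by
    obtain ⟨ω, hω⟩ : ∃ ω, ω = (Polynomial.aeval (edA ξ)
      (∏ s ∈ S, (Polynomial.X - Polynomial.C ((s : ℝ) : ℂ)))) B := ⟨_, rfl⟩
    rw [← hω]
    have h1 : ∀ i, ω (q i • D i) = 0 := by
      intro i
      rw [hω, hpoly]
      refine aeval_of_mem_hsp (M i) ⊤ S ?_
      rw [← (hf i).sum]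
      refine Submodule.sum_mem _ fun a ha => ?_
      refine mem_hsp (c := a - b i) Submodule.mem_top
        (Finset.mem_biUnion.mpr ⟨i, Finset.mem_univ i, Finset.mem_image.mpr ⟨a, ha, rfl⟩⟩) ?_
      show adx ξ (f i a) - ((b i : ℝ) : ℂ) • (f i a) = _
      have h2 : adx ξ (f i a) = (a : ℂ) • f i a := (hf i).eig a
      rw [h2, ← sub_smul]
      push_cast
      rfl
    have h2 : ∀ i, ω (D i) = 0 := by
      intro i
      have h3 := h1 i
      rw [map_smul] at h3
      exact (smul_eq_zero.mp h3).resolve_left (hq0 i)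
    refine LinearMap.ext fun E => ?_
    rw [hD.complete E, map_sum, LinearMap.zero_apply]
    refine Finset.sum_eq_zero fun i _ => ?_
    rw [map_smul, h2 i, smul_zero]
  have hW : ∀ y ∈ edW R, edA ξ y ∈ edW R := by
    intro C hC E hE' x hx
    have hξE : Pres R ⁅ξ, E⁆ := by
      intro y hy
      rw [Derivation.commutator_apply]
      exact R.sub_mem (h.pres _ (hE' y hy)) (hE' _ (h.pres y hy))
    show (⁅ξ, C E⁆ - C ⁅ξ, E⁆) x ∈ R
    rw [Derivation.sub_apply, Derivation.commutator_apply]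
    exact R.sub_mem (R.sub_mem (h.pres _ (hC E hE' x hx)) (hC E hE' _ (h.pres x hx)))
      (hC _ hξE x hx)
  obtain ⟨c, hc⟩ := exists_dec (dec_of_aeval (edA ξ) (edW R) hW S B
    (show PresE R B from hB) hzero)
  refine ⟨S, c, fun s => ⟨hc.mem s, fun E => ?_⟩, fun s hs => ?_, fun E => ?_⟩
  · have h1 : edA ξ (c s) = (s : ℂ) • c s := hc.eig s
    have h2 := LinearMap.congr_fun h1 E
    rw [edA_apply, LinearMap.smul_apply] at h2
    rw [← h2]
    abel
  · by_contra h0
    exact hs (hc.prop s h0)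
  · have h1 : B = ∑ s ∈ S, c s := by
      rw [← hc.sum]
      refine Finset.sum_subset (fun s hs => hc.prop s (Finsupp.mem_support_iff.mp hs)) ?_
      intro s _ hs
      exact Finsupp.notMem_support_iff.mp hs
    conv_lhs => rw [h1]
    rw [LinearMap.sum_apply]

end Pool.Agent.Helper37.SD
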