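import Pool.Agent.Helper37.TF.Defs

/-!
# T*, form half: decomposition of closed regular forms into homogeneous forms
-/

set_option autoImplicit false

namespace Pool.Agent.Helper37.SD

open Module

variable {K : Type} [Field K] [Algebra ℂ K] {R : Subalgebra ℂ K} {ξ : Derivation ℂ K K}

/-- The Lie derivative along any derivation of a closed alternating form is closed: `L_X ω = d (i_X ω)`.  Write `θ = ω X`; by
closedness (of `ω` at `X, D, E`) `Lf X ω D E = D (θ E) - E (θ D) - θ ⁅D, E⁆`, and `d` of such a form is `0` (expand, Jacobi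
identity `lie_jacobi` for the term `θ ⁅⁅A, B⁆, C⁆ + …`, `Derivation.commutator_apply`). -/
theorem Lf_closed {ω : Form K} (halt : ∀ D, ω D D = 0) (hcl : Closed ω) (X : Derivation ℂ K K) :
    Closed (Lf X ω) := by
  intro A B C
  have e0 := congrArg X (hcl A B C)
  have e1 := hcl ⁅X, A⁆ B C
  have e2 := hcl A ⁅X, B⁆ C
  have e3 := hcl A B ⁅X, C⁆
  have j1 : ω ⁅X, ⁅A, B⁆⁆ C = ω ⁅⁅X, A⁆, B⁆ C + ω ⁅A, ⁅X, B⁆⁆ C := by
    rw [leibniz_lie X A B, map_add, LinearMap.add_apply]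
  have j2 : ω ⁅X, ⁅A, C⁆⁆ B = ω ⁅⁅X, A⁆, C⁆ B + ω ⁅A, ⁅X, C⁆⁆ B := by
    rw [leibniz_lie X A C, map_add, LinearMap.add_apply]
  have j3 : ω ⁅X, ⁅B, C⁆⁆ A = ω ⁅⁅X, B⁆, C⁆ A + ω ⁅B, ⁅X, C⁆⁆ A := by
    rw [leibniz_lie X B C, map_add, LinearMap.add_apply]
  simp only [map_add, map_sub, map_zero, Derivation.commutator_apply] at e0 e1 e2 e3
  show A (X (ω B C) - ω ⁅X, B⁆ C - ω B ⁅X, C⁆) - B (X (ω A C) - ω ⁅X, A⁆ C - ω A ⁅X, C⁆) +
    C (X (ω A B) - ω ⁅X, A⁆ B - ω A ⁅X, B⁆) -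
    (X (ω ⁅A, B⁆ C) - ω ⁅X, ⁅A, B⁆⁆ C - ω ⁅A, B⁆ ⁅X, C⁆) +
    (X (ω ⁅A, C⁆ B) - ω ⁅X, ⁅A, C⁆⁆ B - ω ⁅A, C⁆ ⁅X, B⁆) -
    (X (ω ⁅B, C⁆ A) - ω ⁅X, ⁅B, C⁆⁆ A - ω ⁅B, C⁆ ⁅X, A⁆) = 0
  simp only [map_sub]
  linear_combination e0 - e1 - e2 - e3 + j1 - j2 + j3

/-- The Lie derivative along `ξ` as a `ℂ`-linear map on forms. -/
private noncomputable def fdA (ξ : Derivation ℂ K K) : Form K →ₗ[ℂ] Form K where
  toFun ω := Lf ξ ω
  map_add' ω ω' := by
    ext D E : 2
    show ξ (ω D E + ω' D E) - (ω ⁅ξ, D⁆ E + ω' ⁅ξ, D⁆ E) - (ω D ⁅ξ, E⁆ + ω' D ⁅ξ, E⁆) =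
      (ξ (ω D E) - ω ⁅ξ, D⁆ E - ω D ⁅ξ, E⁆) + (ξ (ω' D E) - ω' ⁅ξ, D⁆ E - ω' D ⁅ξ, E⁆)
    rw [map_add]
    ring
  map_smul' z ω := by
    ext D E : 2
    show ξ (z • ω D E) - z • ω ⁅ξ, D⁆ E - z • ω D ⁅ξ, E⁆ =
      z • (ξ (ω D E) - ω ⁅ξ, D⁆ E - ω D ⁅ξ, E⁆)
    rw [Derivation.map_smul, smul_sub, smul_sub]

/-- The closed regular forms. -/
private def fdW (R : Subalgebra ℂ K) : Submodule ℂ (Form K) where
  carrier := {ω | IsReg R ω ∧ Closed ω}
  add_mem' := by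
    rintro ω ω' ⟨h1, h2⟩ ⟨h1', h2'⟩
    refine ⟨⟨fun D => ?_, fun D E hD hE => ?_⟩, fun A B C => ?_⟩
    · show ω D D + ω' D D = 0
      rw [h1.alt, h1'.alt, add_zero]
    · exact R.add_mem (h1.reg D E hD hE) (h1'.reg D E hD hE)
    · have e1 := h2 A B C
      have e2 := h2' A B C
      show A (ω B C + ω' B C) - B (ω A C + ω' A C) + C (ω A B + ω' A B) -
        (ω ⁅A, B⁆ C + ω' ⁅A, B⁆ C) + (ω ⁅A, C⁆ B + ω' ⁅A, C⁆ B) -
        (ω ⁅B, C⁆ A + ω' ⁅B, C⁆ A) = 0
      rw [map_add, map_add, map_add]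
      linear_combination e1 + e2
  zero_mem' := by
    refine ⟨⟨fun D => rfl, fun D E _ _ => R.zero_mem⟩, fun A B C => ?_⟩
    show A 0 - B 0 + C 0 - 0 + 0 - 0 = 0
    rw [map_zero, map_zero, map_zero]
    ring
  smul_mem' := by
    rintro z ω ⟨h1, h2⟩
    refine ⟨⟨fun D => ?_, fun D E hD hE => ?_⟩, fun A B C => ?_⟩
    · show z • ω D D = 0
      rw [h1.alt, smul_zero]
    · exact R.smul_mem (h1.reg D E hD hE) z
    · have e1 := congrArg (fun t : K => z • t) (h2 A B C)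
      simp only [smul_zero, smul_sub, smul_add] at e1
      show A (z • ω B C) - B (z • ω A C) + C (z • ω A B) -
        z • ω ⁅A, B⁆ C + z • ω ⁅A, C⁆ B - z • ω ⁅B, C⁆ A = 0
      rw [Derivation.map_smul, Derivation.map_smul, Derivation.map_smul]
      exact e1

/-- A closed regular form on a cone is a finite sum of closed regular homogeneous forms.

Plan.  Let `A : Form K →ₗ[ℂ] Form K`, `A ω = Lf ξ ω`, and `W` the `ℂ`-submodule of the closed regular forms; `A` preserves `W`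
(`Lf_closed`, `Lf_reg` with `h.pres`, alternating).  There is a `K`-basis of `Der K` of homogeneous derivations `E i` of `R`, of degrees `e i`
(multiply the homogeneous frame `exists_hom_frame`, `frame_comm`, by denominators, `IsCone.der_den`).  `η (E i) (E j) ∈ R` is a
finite sum of eigenvectors of `ξ` (`exists_dec (h.span _ _)`), with eigenvalues in a finite set `S i j`; let `S` be the union of the
`S i j - e i - e j`.  Since `(Lf ξ ω) (E i) (E j) = (ξ - e i - e j) (ω (E i) (E j))`, the product `∏_{κ ∈ S} (A - κ)` kills `η`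
(as in the proof of `der_dec`: `aeval`, `aeval_of_mem_hsp`; a form is determined by its values on the basis).  `dec_of_aeval` gives
`η ∈ Hsp A W (· ∈ S)`, and `exists_dec` the components: `κ ↦ f κ` (`A (f κ) = κ • f κ` is `HomForm ξ κ (f κ)`, see `homForm_iff`; note
the scalar action of `ℂ` on forms: `(z • ω) D E = z • ω D E`). -/
theorem form_dec (h : IsCone R ξ) (hfin : Module.Finite K (Derivation ℂ K K)) {η : Form K}
    (hη : IsReg R η) (hcl : Closed η) : ∃ (S : Finset ℝ) (c : ℝ → Form K),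
      (∀ κ, IsReg R (c κ) ∧ Closed (c κ) ∧ HomForm ξ κ (c κ)) ∧ (∀ κ, κ ∉ S → c κ = 0) ∧
        ∀ D E, η D E = ∑ κ ∈ S, c κ D E := by
  classical
  obtain ⟨D, g, hD, hg⟩ := exists_hom_frame h hfin rfl
  have hcomm := frame_comm hD (fun i => (hg i).2)
  have hcomm' : ∀ i, ⁅ξ, D i⁆ = ((0 : ℝ) : ℂ) • D i := fun i => by
    rw [hcomm i]
    simp
  choose q b hqR hq0 hqb hqD using fun i => h.der_den (hcomm' i)
  have hE : ∀ i, ⁅ξ, q i • D i⁆ = ((b i : ℝ) : ℂ) • (q i • D i) := fun i => by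
    have := hom_smul (hcomm' i) (hqb i)
    rwa [add_zero] at this
  choose f hf using fun i j => exists_dec (h.span _ (hη.reg _ _ (hqD i) (hqD j)))
  let S : Finset ℝ := Finset.univ.biUnion fun i => Finset.univ.biUnion fun j =>
    (f i j).support.image fun a => a - (b i + b j)
  let B : Fin (finrank K (Derivation ℂ K K)) → Fin (finrank K (Derivation ℂ K K)) → (K →ₗ[ℂ] K) :=
    fun i j => (ξ : K →ₗ[ℂ] K) - ((b i + b j : ℝ) : ℂ) • LinearMap.id
  have hstep : ∀ i j (ω : Form K), (fdA ξ ω) (q i • D i) (q j • D j) =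
      (B i j) (ω (q i • D i) (q j • D j)) := by
    intro i j ω
    show ξ (ω (q i • D i) (q j • D j)) - ω ⁅ξ, q i • D i⁆ (q j • D j) -
      ω (q i • D i) ⁅ξ, q j • D j⁆ = ξ (ω (q i • D i) (q j • D j)) -
        ((b i + b j : ℝ) : ℂ) • ω (q i • D i) (q j • D j)
    rw [hE i, hE j, form_smul_left, form_smul_right]
    push_cast
    rw [add_smul]
    ring
  have hpow : ∀ i j (k : ℕ) (ω : Form K), ((fdA ξ ^ k) ω) (q i • D i) (q j • D j) =
      ((B i j) ^ k) (ω (q i • D i) (q j • D j)) := by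
    intro i j k
    induction k with
    | zero => intro ω; rfl
    | succ k ih =>
      intro ω
      rw [pow_succ, pow_succ]
      show ((fdA ξ ^ k) (fdA ξ ω)) (q i • D i) (q j • D j) =
        ((B i j) ^ k) ((B i j) (ω (q i • D i) (q j • D j)))
      rw [ih, hstep]
  have hpoly : ∀ (p : Polynomial ℂ) (i j) (ω : Form K),
      ((Polynomial.aeval (fdA ξ) p) ω) (q i • D i) (q j • D j) =
        (Polynomial.aeval (B i j) p) (ω (q i • D i) (q j • D j)) := by
    intro p i j ω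
    induction p using Polynomial.induction_on' with
    | add p p' hp hp' =>
      rw [map_add, map_add]
      show ((Polynomial.aeval (fdA ξ) p) ω) (q i • D i) (q j • D j) +
        ((Polynomial.aeval (fdA ξ) p') ω) (q i • D i) (q j • D j) =
        (Polynomial.aeval (B i j) p) (ω (q i • D i) (q j • D j)) +
          (Polynomial.aeval (B i j) p') (ω (q i • D i) (q j • D j))
      rw [hp, hp']
    | monomial n z =>
      rw [Polynomial.aeval_monomial, Polynomial.aeval_monomial]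
      show (algebraMap ℂ (Module.End ℂ (Form K)) z ((fdA ξ ^ n) ω)) (q i • D i) (q j • D j) =
        algebraMap ℂ (Module.End ℂ K) z ((B i j ^ n) (ω (q i • D i) (q j • D j)))
      rw [Module.algebraMap_end_apply, Module.algebraMap_end_apply, ← hpow i j]
      rfl
  have hzero : (Polynomial.aeval (fdA ξ)
      (∏ s ∈ S, (Polynomial.X - Polynomial.C ((s : ℝ) : ℂ)))) η = 0 := by
    obtain ⟨ω, hω⟩ : ∃ ω, ω = (Polynomial.aeval (fdA ξ)
      (∏ s ∈ S, (Polynomial.X - Polynomial.C ((s : ℝ) : ℂ)))) η := ⟨_, rfl⟩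
    rw [← hω]
    have h1 : ∀ i j, ω (q i • D i) (q j • D j) = 0 := by
      intro i j
      rw [hω, hpoly]
      refine aeval_of_mem_hsp (B i j) ⊤ S ?_
      rw [← (hf i j).sum]
      refine Submodule.sum_mem _ fun a ha => ?_
      refine mem_hsp (c := a - (b i + b j)) Submodule.mem_top
        (Finset.mem_biUnion.mpr ⟨i, Finset.mem_univ i, Finset.mem_biUnion.mpr ⟨j,
          Finset.mem_univ j, Finset.mem_image.mpr ⟨a, ha, rfl⟩⟩⟩) ?_
      show ξ (f i j a) - ((b i + b j : ℝ) : ℂ) • (f i j a) = _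
      have h2 : ξ (f i j a) = (a : ℂ) • f i j a := (hf i j).eig a
      rw [h2, ← sub_smul]
      push_cast
      rfl
    ext A B' : 2
    refine form_ext_frame hD (α := ω) (β := 0) (fun i j => ?_) A B'
    have h2 := h1 i j
    rw [map_smul, map_smul ω, LinearMap.smul_apply, smul_eq_mul, smul_eq_mul] at h2
    have h3 := (mul_eq_zero.mp h2).resolve_left (hq0 j)
    exact (mul_eq_zero.mp h3).resolve_left (hq0 i)
  have hW : ∀ y ∈ fdW R, fdA ξ y ∈ fdW R := by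
    rintro ω ⟨h1, h2⟩
    refine ⟨⟨fun E => ?_, fun E F hE hF => Lf_reg h1.reg h.pres hE hF⟩,
      Lf_closed h1.alt h2 ξ⟩
    show ξ (ω E E) - ω ⁅ξ, E⁆ E - ω E ⁅ξ, E⁆ = 0
    rw [h1.alt, map_zero, alt_neg h1.alt ⁅ξ, E⁆ E]
    ring
  obtain ⟨c, hc⟩ := exists_dec (dec_of_aeval (fdA ξ) (fdW R) hW S η
    (show IsReg R η ∧ Closed η from ⟨hη, hcl⟩) hzero)
  refine ⟨S, c, fun κ => ⟨(hc.mem κ).1, (hc.mem κ).2, ?_⟩, fun κ hκ => ?_, fun E F => ?_⟩
  · intro E F
    have h1 : Lf ξ (c κ) = (κ : ℂ) • c κ := hc.eig κ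
    have h2 := LinearMap.congr_fun (LinearMap.congr_fun h1 E) F
    exact h2
  · by_contra h0
    exact hκ (hc.prop κ h0)
  · have h1 : η = ∑ κ ∈ S, c κ := by
      rw [← hc.sum]
      refine Finset.sum_subset (fun κ hκ => hc.prop κ (Finsupp.mem_support_iff.mp hκ)) ?_
      intro κ _ hκ
      exact Finsupp.notMem_support_iff.mp hκ
    conv_lhs => rw [h1]
    rw [LinearMap.sum_apply, LinearMap.sum_apply]

end Pool.Agent.Helper37.SD
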