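import Mathlib

/-!
# T*, form half: Newton identities for `det (1 - s M)` and the inverse of `1 - M`
-/

set_option autoImplicit false

namespace Pool.Agent.Helper37.SD

open Module

/-- Jacobi's formula for polynomial matrices. -/
private theorem deriv_det {K : Type} [Field K] {d : ℕ} (F : Matrix (Fin d) (Fin d) (Polynomial K)) :
    Polynomial.derivative F.det = (F.adjugate * F.map Polynomial.derivative).trace := by
  have h1 : ∀ i : Fin d, (F.adjugate * F.map Polynomial.derivative) i i =
      (F.updateCol i (fun k => Polynomial.derivative (F k i))).det := by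
    intro i
    rw [← Matrix.cramer_apply, Matrix.cramer_eq_adjugate_mulVec]
    rfl
  have h2 : (F.adjugate * F.map Polynomial.derivative).trace =
      ∑ i, (F.updateCol i (fun k => Polynomial.derivative (F k i))).det := by
    rw [Matrix.trace]
    exact Finset.sum_congr rfl fun i _ => h1 i
  rw [h2, Matrix.det_apply, map_sum]
  have h3 : ∀ i : Fin d, (F.updateCol i (fun k => Polynomial.derivative (F k i))).det =
      ∑ σ : Equiv.Perm (Fin d), Equiv.Perm.sign σ •
        ((∏ j ∈ Finset.univ.erase i, F (σ j) j) * Polynomial.derivative (F (σ i) i)) := by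
    intro i
    rw [Matrix.det_apply]
    refine Finset.sum_congr rfl fun σ _ => ?_
    congr 1
    rw [← Finset.prod_erase_mul _ _ (Finset.mem_univ i)]
    congr 1
    · refine Finset.prod_congr rfl fun j hj => ?_
      rw [Matrix.updateCol_apply, if_neg (Finset.ne_of_mem_erase hj)]
    · rw [Matrix.updateCol_apply, if_pos rfl]
  rw [Finset.sum_congr rfl fun i _ => h3 i, Finset.sum_comm]
  refine Finset.sum_congr rfl fun σ _ => ?_
  rw [← Finset.smul_sum, ← Polynomial.derivative_prod_finset]
  exact Polynomial.derivative_smul _ _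

/-- The coefficients of the adjugate of `1 - s M`. -/
private theorem adj_rec {K : Type} [Field K] {d : ℕ} (M : Matrix (Fin d) (Fin d) K) (n : ℕ) :
    (((1 : Matrix (Fin d) (Fin d) (Polynomial K)) -
        (Polynomial.X : Polynomial K) • M.map Polynomial.C).adjugate.map fun f => f.coeff n) =
      ∑ i ∈ Finset.range (n + 1), M.charpolyRev.coeff (n - i) • M ^ i := by
  set F : Matrix (Fin d) (Fin d) (Polynomial K) :=
    (1 : Matrix (Fin d) (Fin d) (Polynomial K)) -
      (Polynomial.X : Polynomial K) • M.map Polynomial.C with hF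
  have h0 : F * F.adjugate = M.charpolyRev • 1 := F.mul_adjugate
  have h1 : F.adjugate = M.charpolyRev • 1 +
      (Polynomial.X : Polynomial K) • (M.map Polynomial.C * F.adjugate) := by
    rw [← h0, ← Matrix.smul_mul, ← add_mul, hF, sub_add_cancel, one_mul]
  have hc : ∀ (n : ℕ) (i j : Fin d),
      ((M.map Polynomial.C * F.adjugate) i j).coeff n =
        (M * F.adjugate.map fun f => f.coeff n) i j := by
    intro n i j
    rw [Matrix.mul_apply, Matrix.mul_apply, Polynomial.finsetSum_coeff]
    refine Finset.sum_congr rfl fun k _ => ?_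
    rw [Matrix.map_apply, Polynomial.coeff_C_mul, Matrix.map_apply]
  have hone : ∀ (n : ℕ) (i j : Fin d),
      ((M.charpolyRev • (1 : Matrix (Fin d) (Fin d) (Polynomial K))) i j).coeff n =
        (M.charpolyRev.coeff n • (1 : Matrix (Fin d) (Fin d) K)) i j := by
    intro n i j
    rw [Matrix.smul_apply, Matrix.smul_apply, smul_eq_mul, smul_eq_mul]
    by_cases hij : i = j
    · subst hij
      rw [Matrix.one_apply_eq, Matrix.one_apply_eq, mul_one, mul_one]
    · rw [Matrix.one_apply_ne hij, Matrix.one_apply_ne hij, mul_zero, mul_zero,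
        Polynomial.coeff_zero]
  have hX0 : ∀ (G : Matrix (Fin d) (Fin d) (Polynomial K)) (i j : Fin d),
      (((Polynomial.X : Polynomial K) • G) i j).coeff 0 = 0 := by
    intro G i j
    rw [Matrix.smul_apply, smul_eq_mul, Polynomial.mul_coeff_zero, Polynomial.coeff_X_zero,
      zero_mul]
  have hX1 : ∀ (G : Matrix (Fin d) (Fin d) (Polynomial K)) (n : ℕ) (i j : Fin d),
      (((Polynomial.X : Polynomial K) • G) i j).coeff (n + 1) = (G i j).coeff n := by
    intro G n i j
    rw [Matrix.smul_apply, smul_eq_mul, Polynomial.coeff_X_mul]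
  induction n with
  | zero =>
    rw [zero_add, Finset.sum_range_one, pow_zero, Nat.sub_zero]
    ext i j
    rw [Matrix.map_apply, h1, Matrix.add_apply, Polynomial.coeff_add, hone, hX0, add_zero]
  | succ n ih =>
    have h2 : (F.adjugate.map fun f => f.coeff (n + 1)) =
        M.charpolyRev.coeff (n + 1) • 1 + M * F.adjugate.map fun f => f.coeff n := by
      ext i j
      rw [Matrix.map_apply]
      conv_lhs => rw [h1]
      rw [Matrix.add_apply, Polynomial.coeff_add, hone, hX1, hc, Matrix.add_apply]
    rw [h2, ih, Finset.sum_range_succ' _ (n + 1), Nat.sub_zero, pow_zero, add_comm, Finset.mul_sum]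
    congr 1
    refine Finset.sum_congr rfl fun i _ => ?_
    rw [Nat.add_sub_add_right, Matrix.mul_smul, pow_succ']

/-- The coefficients `q m` of `det (1 - s M)` (`Matrix.charpolyRev`): Newton's identities, `det (1 - M) = ∑ q m`, and the
inverse of `1 - M` up to `det (1 - M)` is a combination of the powers of `M` with coefficients in the ring generated by the `q m`.

Plan.  (1) Newton: over the field of Laurent series / the ring of power series `A = K⟦X⟧` (or `RatFunc K`) the matrix
`1 - X M` is invertible with inverse `∑ X ^ i M ^ i`; Jacobi's formula `(det F)' = det F tr (F⁻¹ F')` (prove it like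
`Pool.Agent.Helper37.SD.der_det`: the ring homomorphism `f ↦ f + ε f'` to dual numbers, or use
`Matrix.derivative_det_one_add_X_smul` type lemmas) gives `q' = - q tr ((1 - X M)⁻¹ M)`; compare coefficients.
Alternatively use the Newton identities of Mathlib (`MvPolynomial.sum_antidiagonal_card_esymm_psum_eq_zero` etc.) for the roots of
the characteristic polynomial in the algebraic closure (`Matrix.trace_pow ..`, `Matrix.charpoly` splits).
(2) `det (1 - M)` is the value at `1` of `charpolyRev`.  (3) `Matrix.reverse_charpoly`: the coefficients of `charpoly M` are among the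
`q m`; `charpoly M = C (eval 1) + (X - 1) g` (`Polynomial.mul_divByMonic_eq_iff_isRoot`, `X_sub_C_mul_divByMonic_eq_sub_modByMonic`,
or explicit), `g` has coefficients in the ring generated by the `q m`; Cayley-Hamilton `Matrix.aeval_self_charpoly`;
`eval 1 (charpoly M) = det (1 - M)` (`Matrix.eval_charpoly`/`eval_det`). -/
theorem newton_det {K : Type} [Field K] [Algebra ℂ K] {d : ℕ} (M : Matrix (Fin d) (Fin d) K) :
    ∃ q : ℕ → K, q 0 = 1 ∧
      (∀ m : ℕ, ((m : K) + 1) * q (m + 1) =
        -∑ i ∈ Finset.range (m + 1), q (m - i) * (M ^ (i + 1)).trace) ∧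
      (1 - M).det = ∑ m ∈ Finset.range (d + 1), q m ∧
      ∃ c : ℕ → K, (∀ R : Subalgebra ℂ K, (∀ m, q m ∈ R) → ∀ m, c m ∈ R) ∧
        (1 - M) * ∑ i ∈ Finset.range (d + 1), c i • M ^ i = (1 - M).det • 1 := by
  have hcard : M.charpoly.natDegree = d := by
    rw [Matrix.charpoly_natDegree_eq_dim, Fintype.card_fin]
  have hrev : ∀ i, i ≤ d → M.charpolyRev.coeff (d - i) = M.charpoly.coeff i := by
    intro i hi
    rw [← Matrix.reverse_charpoly, Polynomial.coeff_reverse, hcard,
      Polynomial.revAt_le (Nat.sub_le d i), Nat.sub_sub_self hi]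
  have hCH : ∑ i ∈ Finset.range (d + 1), M.charpolyRev.coeff (d - i) • M ^ i = 0 := by
    have h1 := Matrix.aeval_self_charpoly M
    rw [Polynomial.aeval_eq_sum_range, hcard] at h1
    rw [← h1]
    refine Finset.sum_congr rfl fun i hi => ?_
    rw [hrev i (Nat.lt_succ_iff.mp (Finset.mem_range.mp hi))]
  have hdet : (1 - M).det = ∑ m ∈ Finset.range (d + 1), M.charpolyRev.coeff m := by
    have h1 : (1 - M).det = Polynomial.eval 1 M.charpolyRev := by
      rw [Matrix.charpolyRev, ← Polynomial.coe_evalRingHom, RingHom.map_det]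
      congr 1
      ext i j
      rw [RingHom.mapMatrix_apply, Matrix.map_apply, Matrix.sub_apply, Matrix.sub_apply,
        Matrix.smul_apply, Matrix.map_apply, smul_eq_mul, map_sub, map_mul,
        Polynomial.coe_evalRingHom, Polynomial.eval_X, Polynomial.eval_C, one_mul]
      congr 1
      by_cases hij : i = j
      · subst hij
        rw [Matrix.one_apply_eq, Matrix.one_apply_eq, Polynomial.eval_one]
      · rw [Matrix.one_apply_ne hij, Matrix.one_apply_ne hij, Polynomial.eval_zero]
    have h2 : M.charpolyRev.natDegree < d + 1 := by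
      rw [← Matrix.reverse_charpoly]
      have := Polynomial.reverse_natDegree_le M.charpoly
      omega
    rw [h1, Polynomial.eval_eq_sum_range' h2]
    exact Finset.sum_congr rfl fun i _ => by rw [one_pow, mul_one]
  refine ⟨fun m => M.charpolyRev.coeff m, ?_, ?_, hdet,
    fun i => ∑ j ∈ Finset.range (d + 1 - i), M.charpolyRev.coeff j, ?_, ?_⟩
  · show M.charpolyRev.coeff 0 = 1
    rw [Polynomial.coeff_zero_eq_eval_zero, Matrix.eval_charpolyRev]
  · intro m
    set F : Matrix (Fin d) (Fin d) (Polynomial K) :=
      (1 : Matrix (Fin d) (Fin d) (Polynomial K)) -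
        (Polynomial.X : Polynomial K) • M.map Polynomial.C with hF
    have h1 : Polynomial.derivative M.charpolyRev =
        (F.adjugate * F.map Polynomial.derivative).trace := deriv_det F
    have h2 : F.map Polynomial.derivative = -(M.map Polynomial.C) := by
      ext1 i j
      rw [Matrix.map_apply, Matrix.neg_apply, hF, Matrix.sub_apply, Matrix.smul_apply,
        Matrix.map_apply, smul_eq_mul, Polynomial.derivative_sub, Polynomial.derivative_mul,
        Polynomial.derivative_X, Polynomial.derivative_C, mul_zero, add_zero, one_mul]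
      have : Polynomial.derivative ((1 : Matrix (Fin d) (Fin d) (Polynomial K)) i j) = 0 := by
        by_cases hij : i = j
        · subst hij
          rw [Matrix.one_apply_eq, Polynomial.derivative_one]
        · rw [Matrix.one_apply_ne hij, Polynomial.derivative_zero]
      rw [this, zero_sub]
    rw [h2, Matrix.mul_neg, Matrix.trace_neg] at h1
    have h3 := congrArg (fun f : Polynomial K => f.coeff m) h1
    simp only [Polynomial.coeff_derivative, Polynomial.coeff_neg] at h3
    have h4 : (F.adjugate * M.map Polynomial.C).trace.coeff m =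
        ((F.adjugate.map fun f => f.coeff m) * M).trace := by
      rw [Matrix.trace, Matrix.trace, Polynomial.finsetSum_coeff]
      refine Finset.sum_congr rfl fun i _ => ?_
      rw [Matrix.diag_apply, Matrix.diag_apply, Matrix.mul_apply, Matrix.mul_apply,
        Polynomial.finsetSum_coeff]
      refine Finset.sum_congr rfl fun k _ => ?_
      rw [Matrix.map_apply, Polynomial.coeff_mul_C, Matrix.map_apply]
    rw [h4, hF, adj_rec, Finset.sum_mul, Matrix.trace_sum] at h3
    rw [mul_comm, h3]
    congr 1
    refine Finset.sum_congr rfl fun i _ => ?_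
    rw [Matrix.smul_mul, ← pow_succ, Matrix.trace_smul, smul_eq_mul]
  · intro R hR m
    exact R.sum_mem fun j _ => hR j
  · rw [sub_mul, one_mul, Finset.mul_sum]
    have e1 : ∑ i ∈ Finset.range (d + 1),
        (∑ j ∈ Finset.range (d + 1 - i), M.charpolyRev.coeff j) • M ^ i =
        (∑ i ∈ Finset.range d,
          (∑ j ∈ Finset.range (d - i), M.charpolyRev.coeff j) • M ^ (i + 1)) +
        (∑ j ∈ Finset.range (d + 1), M.charpolyRev.coeff j) • 1 := by
      rw [Finset.sum_range_succ', Nat.sub_zero, pow_zero]
      congr 1
      refine Finset.sum_congr rfl fun i _ => ?_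
      rw [Nat.add_sub_add_right]
    have e2 : ∑ i ∈ Finset.range (d + 1),
        M * ((∑ j ∈ Finset.range (d + 1 - i), M.charpolyRev.coeff j) • M ^ i) =
        (∑ i ∈ Finset.range d,
          (∑ j ∈ Finset.range (d - i), M.charpolyRev.coeff j) • M ^ (i + 1)) +
        M * ∑ i ∈ Finset.range (d + 1), M.charpolyRev.coeff (d - i) • M ^ i := by
      have e3 : ∑ i ∈ Finset.range d,
          (∑ j ∈ Finset.range (d - i), M.charpolyRev.coeff j) • M ^ (i + 1) =
          ∑ i ∈ Finset.range (d + 1),
          (∑ j ∈ Finset.range (d - i), M.charpolyRev.coeff j) • M ^ (i + 1) := by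
        rw [Finset.sum_range_succ, Nat.sub_self, Finset.range_zero, Finset.sum_empty, zero_smul,
          add_zero]
      rw [e3, Finset.mul_sum, ← Finset.sum_add_distrib]
      refine Finset.sum_congr rfl fun i hi => ?_
      have hi' : i ≤ d := Nat.lt_succ_iff.mp (Finset.mem_range.mp hi)
      rw [Nat.succ_sub hi', Finset.sum_range_succ, Matrix.mul_smul, Matrix.mul_smul,
        ← pow_succ', add_smul]
    rw [e1, e2, hCH, mul_zero, add_zero, hdet, add_sub_cancel_left]

end Pool.Agent.Helper37.SD
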