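import Pool.Agent.Helper37.TF.Int
import Pool.Agent.Helper37.TF.EDec

/-!
# T*, form half: traces in the maximal ideal
-/

set_option autoImplicit false

namespace Pool.Agent.Helper37.SD

open Module

variable {K : Type} [Field K] [Algebra ℂ K] {R : Subalgebra ℂ K} {ξ : Derivation ℂ K K}

private theorem eig_div' {x y : K} {a b : ℝ} (hx : ξ x = (a : ℂ) • x) (hy : ξ y = (b : ℂ) • y) :
    ξ (x / y) = ((a - b : ℝ) : ℂ) • (x / y) := by
  by_cases h0 : y = 0
  · rw [h0, div_zero, map_zero, smul_zero]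
  · rw [der_div ξ x y h0, hx, hy]
    push_cast
    rw [sub_smul, mul_smul_comm, mul_smul_comm, mul_comm y x, ← sub_smul, ← sub_smul, smul_div_assoc]
    congr 1
    field_simp

private theorem quo_eig {d : ℕ} {g : Fin d → K} (hg : ∀ i, ∃ c : ℝ, ξ (g i) = (c : ℂ) • g i)
    {Y : Derivation ℂ K K} {s : ℝ} (hY : ⁅ξ, Y⁆ = (s : ℂ) • Y) (i : Fin d) :
    ξ (Y (g i) / g i) = (s : ℂ) • (Y (g i) / g i) := by
  obtain ⟨c, hc⟩ := hg i
  have h1 := eig_div' (hom_apply hY hc) hc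
  rwa [add_sub_cancel_left] at h1

private theorem sum_eig {d : ℕ} {x : Fin d → K} {s : ℝ} (hx : ∀ i, ξ (x i) = (s : ℂ) • x i) :
    ξ (∑ i, x i) = (s : ℂ) • ∑ i, x i := by
  rw [map_sum, Finset.smul_sum]
  exact Finset.sum_congr rfl fun i _ => hx i

private theorem trF_eig {d : ℕ} {D : Fin d → Derivation ℂ K K} {g : Fin d → K}
    (hD : IsFrame D g) (hg : ∀ i, ∃ c : ℝ, ξ (g i) = (c : ℂ) • g i)
    {C : Derivation ℂ K K →ₗ[K] Derivation ℂ K K} {s : ℝ}
    (hC : ∀ E, ⁅ξ, C E⁆ = C ⁅ξ, E⁆ + (s : ℂ) • C E) :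
    ξ (trF D g C) = (s : ℂ) • trF D g C := by
  have hcomm := frame_comm hD hg
  refine sum_eig fun i => quo_eig hg ?_ i
  rw [hC, hcomm i, map_zero, zero_add]

private theorem dvF_eig {d : ℕ} {D : Fin d → Derivation ℂ K K} {g : Fin d → K}
    (hD : IsFrame D g) (hg : ∀ i, ∃ c : ℝ, ξ (g i) = (c : ℂ) • g i) {Δ : K} {b : ℝ}
    (hΔ : ξ Δ = (b : ℂ) • Δ) {Y : Derivation ℂ K K} {s : ℝ} (hY : ⁅ξ, Y⁆ = (s : ℂ) • Y) :
    ξ (dvF D g Δ Y) = (s : ℂ) • dvF D g Δ Y := by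
  have hcomm := frame_comm hD hg
  unfold dvF
  have h1 : ξ (∑ i, D i (Y (g i) / g i)) = (s : ℂ) • ∑ i, D i (Y (g i) / g i) :=
    sum_eig fun i => eig_comm (hcomm i) (quo_eig hg hY i)
  have h2 : ξ (2 * Δ) = (b : ℂ) • (2 * Δ) := by
    rw [two_mul, map_add, hΔ, smul_add]
  have h3 := eig_div' (hom_apply hY hΔ) h2
  rw [add_sub_cancel_left] at h3
  rw [map_add, h1, h3, smul_add]

private theorem trF_sum' {d : ℕ} {D : Fin d → Derivation ℂ K K} {g : Fin d → K} {S : Finset ℝ}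
    {B : Derivation ℂ K K → Derivation ℂ K K} {c : ℝ → (Derivation ℂ K K →ₗ[K] Derivation ℂ K K)}
    (hB : ∀ E, B E = ∑ s ∈ S, c s E) : trF D g B = ∑ s ∈ S, trF D g (c s) := by
  unfold trF
  rw [Finset.sum_comm]
  refine Finset.sum_congr rfl fun i _ => ?_
  rw [hB, der_sum_apply, Finset.sum_div]

/-- If the divergence of `B ξ` is `κ / 2` times the trace of `B` and `κ n ≠ a`, then the trace of `B` is in the maximal ideal.

Plan.  `B = ∑ B s` (`endo_dec`).  `⁅ξ, D i⁆ = 0` (`frame_comm`), so `trF D g (B s)` and `dvF D g Δ (B s ξ)` are homogeneous of degree `s` (`⁅ξ, B s ξ⁆ =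
s • B s ξ`, `hom_apply`, `eig_comm`; quotients of homogeneous elements; `Δ` is homogeneous of degree `2 a` by `hΔ`).  Both
sides of `hdiv` are sums over `s` (`dvF_sum`); by the uniqueness of the decomposition (`eig_indep` for the differences) `dvF (B 0 ξ) = κ/2
trF (B 0)`.  `trF (B 0) ∈ R` (`trF_mem`) has degree `0`, so it is a constant `t` (`h.const`); `FT` with `δ = κ t / 2` gives
`κ t n = a t`, so `t = 0`.  The other `trF (B s)` are in the maximal ideal by `trF_mem` and `IsCone.mx_of_eig`. -/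
theorem tr_mx (h : IsCone R ξ) (hN : ∀ x : K, IsIntegral R x → x ∈ R) {n : ℕ}
    (hfin : Module.Finite K (Derivation ℂ K K)) {D : Fin (2 * n) → Derivation ℂ K K}
    {g : Fin (2 * n) → K} (hD : IsFrame D g) (hg : ∀ i, ∃ c : ℝ, ξ (g i) = (c : ℂ) • g i)
    {η : Form K} {a : ℝ} (hΔ : ξ (gram η D).det = ((2 * a : ℝ) : ℂ) • (gram η D).det)
    (hFT : FT n R ξ η a) {B : Derivation ℂ K K →ₗ[K] Derivation ℂ K K} (hB : PresE R B) {κ : ℝ}
    (hdiv : dvF D g (gram η D).det (B ξ) = (((κ / 2 : ℝ) : ℂ)) • trF D g B) (hκ : κ * n ≠ a) :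
    trF D g B ∈ Mx R ξ := by
  classical
  obtain ⟨S, c, hc, hcS, hcB⟩ := endo_dec h hfin hB
  have htr : ∀ s, ξ (trF D g (c s)) = (s : ℂ) • trF D g (c s) := fun s =>
    trF_eig hD hg (hc s).2
  have hbr : ∀ s, ⁅ξ, c s ξ⁆ = (s : ℂ) • c s ξ := fun s => by
    rw [(hc s).2, lie_self, map_zero, zero_add]
  have hdv : ∀ s, ξ (dvF D g (gram η D).det (c s ξ)) =
      (s : ℂ) • dvF D g (gram η D).det (c s ξ) := fun s => dvF_eig hD hg hΔ (hbr s)
  have hsum : trF D g B = ∑ s ∈ S, trF D g (c s) := trF_sum' hcB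
  have hind := eig_indep (ξ : K →ₗ[ℂ] K) S
    (fun s => dvF D g (gram η D).det (c s ξ) - ((κ / 2 : ℝ) : ℂ) • trF D g (c s))
    (fun s _ => by
      show ξ (dvF D g (gram η D).det (c s ξ) - ((κ / 2 : ℝ) : ℂ) • trF D g (c s)) =
        (s : ℂ) • (dvF D g (gram η D).det (c s ξ) - ((κ / 2 : ℝ) : ℂ) • trF D g (c s))
      rw [map_sub, hdv s, Derivation.map_smul, htr s, smul_sub, smul_comm])
    (by
      rw [Finset.sum_sub_distrib, ← Finset.smul_sum, ← hsum, ← dvF_sum, ← hcB, hdiv, sub_self])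
  have h0 : dvF D g (gram η D).det (c 0 ξ) = ((κ / 2 : ℝ) : ℂ) • trF D g (c 0) := by
    by_cases h0S : (0 : ℝ) ∈ S
    · exact sub_eq_zero.mp (hind 0 h0S)
    · rw [hcS 0 h0S]
      have e1 : trF D g ((0 : Derivation ℂ K K →ₗ[K] Derivation ℂ K K)) = 0 := by
        unfold trF
        refine Finset.sum_eq_zero fun i _ => ?_
        show (0 : K) / g i = 0
        rw [zero_div]
      rw [e1, smul_zero, LinearMap.zero_apply, dvF_zero]
  have hz : trF D g (c 0) = 0 := by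
    obtain ⟨t, ht⟩ := h.const _ (trF_mem h hN hD (hc 0).1) (by
      rw [htr 0]
      simp)
    have h1 := hFT (c 0) (hc 0).1 (fun E => by
      rw [(hc 0).2 E]
      simp) D g hD hg t (((κ / 2 : ℝ) : ℂ) * t) ht (by
        rw [h0, ht, Algebra.smul_def, map_mul])
    have h2 : t * ((κ : ℂ) * n - a) = 0 := by
      have h3 : (((κ / 2 : ℝ) : ℂ) * t) * (2 * n) = t * ((κ : ℂ) * n) := by
        push_cast
        ring
      rw [h3] at h1
      rw [mul_sub, h1]
      ring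
    have h4 : (κ : ℂ) * n - a ≠ 0 := by
      intro h5
      apply hκ
      have h6 : (κ : ℂ) * n = a := sub_eq_zero.mp h5
      exact_mod_cast h6
    rw [ht, (mul_eq_zero.mp h2).resolve_right h4, map_zero]
  rw [hsum]
  refine Submodule.sum_mem _ fun s _ => ?_
  by_cases hs : s = 0
  · rw [hs, hz]
    exact Submodule.zero_mem _
  · exact h.mx_of_eig (trF_mem h hN hD (hc s).1) (htr s) hs

end Pool.Agent.Helper37.SD
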