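import Pool.Agent.Helper37.TF.FDec
import Pool.Agent.Helper37.TF.Deg
import Pool.Agent.Helper37.TF.Div
import Pool.Agent.Helper37.TF.Zero
import Pool.Agent.Helper37.TF.Newt

/-!
# T*, form half: a closed nowhere degenerate form on a cone gives a homogeneous one
-/

set_option autoImplicit false

namespace Pool.Agent.Helper37.SD

open Module

variable {K : Type} [Field K] [Algebra ℂ K] {R : Subalgebra ℂ K} {ξ : Derivation ℂ K K}

theorem trF_sum {d : ℕ} (D : Fin d → Derivation ℂ K K) (g : Fin d → K) {ι : Type}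
    (s : Finset ι) (J : ι → Derivation ℂ K K → Derivation ℂ K K) :
    trF D g (fun E => ∑ i ∈ s, J i E) = ∑ i ∈ s, trF D g (J i) := by
  unfold trF
  rw [Finset.sum_comm]
  refine Finset.sum_congr rfl fun k _ => ?_
  rw [der_sum_apply, Finset.sum_div]

theorem matF_lin_ext {d : ℕ} {D : Fin d → Derivation ℂ K K} {g : Fin d → K} (hD : IsFrame D g)
    {J J' : Derivation ℂ K K →ₗ[K] Derivation ℂ K K} (h : matF D g J = matF D g J')
    (E : Derivation ℂ K K) : J E = J' E := by
  have h1 : ∀ i, J (D i) = J' (D i) := by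
    intro i
    refine hD.ext fun k => ?_
    have h2 := congrFun (congrFun h i) k
    have h3 : J (D i) (g k) / g k = J' (D i) (g k) / g k := h2
    have h4 := hD.ne k
    rwa [div_left_inj' h4] at h3
  rw [hD.complete E, map_sum, map_sum]
  exact Finset.sum_congr rfl fun i _ => by rw [map_smul, map_smul, h1 i]

theorem PresE.pow {J : Derivation ℂ K K →ₗ[K] Derivation ℂ K K} (hJ : PresE R J) (i : ℕ) :
    PresE R (J ^ i) := by
  induction i with
  | zero => exact fun E hE => hE
  | succ i ih =>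
    intro E hE
    rw [pow_succ']
    exact hJ _ (ih E hE)

theorem pres_add {D E : Derivation ℂ K K} (hD : Pres R D) (hE : Pres R E) : Pres R (D + E) :=
  fun x hx => R.add_mem (hD x hx) (hE x hx)

theorem pres_fsmul {f : K} (hf : f ∈ R) {D : Derivation ℂ K K} (hD : Pres R D) :
    Pres R (f • D) := fun x hx => R.mul_mem hf (hD x hx)

theorem pres_sum {ι : Type} (s : Finset ι) {D : ι → Derivation ℂ K K}
    (hD : ∀ i ∈ s, Pres R (D i)) : Pres R (∑ i ∈ s, D i) := by
  intro x hx
  rw [der_sum_apply]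
  exact Subalgebra.sum_mem _ fun i hi => hD i hi x hx

theorem bend_apply (J G : Derivation ℂ K K →ₗ[K] Derivation ℂ K K) (p : ℕ → K) (j : ℕ)
    (E : Derivation ℂ K K) :
    Bend J G p j E = ∑ i ∈ Finset.range (j + 1), p (j - i) • (J ^ i) (G E) := by
  unfold Bend
  rw [LinearMap.sum_apply]
  rfl

theorem bend_pres {J G : Derivation ℂ K K →ₗ[K] Derivation ℂ K K} (hJ : PresE R J)
    (hG : PresE R G) {p : ℕ → K} (hp : ∀ m, p m ∈ R) (j : ℕ) : PresE R (Bend J G p j) := by
  intro E hE
  rw [bend_apply]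
  exact pres_sum _ fun i _ => pres_fsmul (hp _) (hJ.pow i _ (hG E hE))

/-- division by a natural number in a complex subspace -/
theorem sub_of_nat_mul {W : Submodule ℂ K} {m : ℕ} {x : K} (h : ((m : K) + 1) * x ∈ W) :
    x ∈ W := by
  have h1 := W.smul_mem ((((m : ℂ) + 1))⁻¹) h
  have h2 : ((m : K) + 1) * x = ((m : ℂ) + 1) • x := by
    rw [Algebra.smul_def]
    congr 1
    rw [map_add, map_natCast, map_one]
  have h3 : ((m : ℂ) + 1) ≠ 0 := Nat.cast_add_one_ne_zero m
  rwa [h2, smul_smul, inv_mul_cancel₀ h3, one_smul] at h1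

/-- The log discrepancies with respect to two forms with the same Gram determinants agree. -/
theorem hasLogDisc_congr {n : ℕ} {η ω : Form K}
    (h : ∀ E : Fin (2 * n) → Derivation ℂ K K, (gram ω E).det = (gram η E).det) {w : RVal K}
    {b : ℝ} : HasLogDisc n η w b ↔ HasLogDisc n ω w b := by
  unfold HasLogDisc
  simp only [h]

/-- **The form half.** -/
theorem exists_hom (h : IsCone R ξ) {v : RVal K} (hv : IsWt R ξ v)
    (hN : ∀ x : K, IsIntegral R x → x ∈ R) {n : ℕ} (hn : 0 < n)
    (hfin : Module.Finite K (Derivation ℂ K K)) (hd : finrank K (Derivation ℂ K K) = 2 * n)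
    {η : Form K} (hη : IsNondeg R η) (hcl : Closed η) {a V : ℝ} (hmin : UniqueMin n R η v a V)
    (hFT : FT n R ξ η a) :
    ∃ η' : Form K, IsNondeg R η' ∧ HomForm ξ (a / n) η' ∧ UniqueMin n R η' v a V := by
  classical
  have hn' : (n : ℝ) ≠ 0 := by exact_mod_cast hn.ne'
  obtain ⟨S, c, hc, hcS, hsum⟩ := form_dec h hfin hη.toIsReg hcl
  obtain ⟨ℓ, hℓ⟩ : ∃ ℓ : ℝ, ℓ = a / n := ⟨_, rfl⟩
  have hℓn : ℓ * n = a := by rw [hℓ, div_mul_cancel₀ _ hn']
  obtain ⟨D, g, hD, hgR⟩ := exists_hom_frame h hfin hd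
  have hg : ∀ i, ∃ c : ℝ, ξ (g i) = (c : ℂ) • g i := fun i => (hgR i).2
  have hDξ := frame_comm hD hg
  -- the rest of the form
  set β : Form K := ∑ κ ∈ S.erase ℓ, c κ with hβ
  have hβ' : ∀ D E, β D E = ∑ κ ∈ S.erase ℓ, c κ D E := fun D E => by
    rw [hβ, LinearMap.sum_apply, LinearMap.sum_apply]
  have hsplit : ∀ D E, η D E = c ℓ D E + β D E := by
    intro D E
    rw [hsum, hβ']
    by_cases hS : ℓ ∈ S
    · exact (Finset.add_sum_erase S (fun κ => c κ D E) hS).symm
    · rw [hcS ℓ hS, Finset.erase_eq_of_notMem hS, LinearMap.zero_apply, LinearMap.zero_apply,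
        zero_add]
  have hβa : ∀ D, β D D = 0 := fun D => by
    rw [hβ']
    exact Finset.sum_eq_zero fun κ _ => (hc κ).1.alt D
  have hβc : Closed β := by
    intro A B C
    have h1 := hcl A B C
    have h2 := (hc ℓ).2.1 A B C
    have h3 : ∀ D E, β D E = η D E - c ℓ D E := fun D E => by rw [hsplit]; ring
    simp only [h3, map_sub]
    linear_combination h1 - h2
  obtain ⟨J, hJ⟩ := exists_endo hfin hη.inj β
  have hGex := fun κ => exists_endo hfin hη.inj (c κ)
  choose G hG using hGex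
  have hJR : PresE R J := by
    intro E hE
    refine hη.perfect _ fun F hF => ?_
    rw [hJ, hβ']
    exact Subalgebra.sum_mem _ fun κ _ => (hc κ).1.reg E F hE hF
  have hGR : ∀ κ, PresE R (G κ) := by
    intro κ E hE
    refine hη.perfect _ fun F hF => ?_
    rw [hG]
    exact (hc κ).1.reg E F hE hF
  have hGsum : ∀ E, J E = ∑ κ ∈ S.erase ℓ, G κ E := by
    intro E
    refine form_inj hη.inj fun F => ?_
    rw [hJ, hβ', map_sum, LinearMap.sum_apply]
    exact Finset.sum_congr rfl fun κ _ => (hG κ E F).symm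
  have hGℓ : ∀ E, G ℓ E = E - J E := by
    intro E
    refine form_inj hη.inj fun F => ?_
    rw [hG, map_sub, LinearMap.sub_apply, hJ, hsplit]
    ring
  -- the traces
  obtain ⟨t, ht⟩ : ∃ t : ℕ → K, t = fun i => trF D g (fun E => (J ^ i) E) := ⟨_, rfl⟩
  have htR : ∀ i, t i ∈ R := by
    intro i
    rw [ht]
    exact trF_mem h hN hD (hJR.pow i)
  obtain ⟨p, hp⟩ := exists_isP t
  have hpR : ∀ m, p m ∈ R := hp.mem fun i => htR _
  have hΔ := gram_eig h hv hN hfin hη hmin.1 hD hg
  -- the sum of the traces of the `B κ j`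
  have hkey : ∀ j, ∑ i ∈ Finset.range (j + 1), p (j - i) * t (i + 1) ∈ Mx R ξ := by
    intro j
    have h1 : ∀ κ ∈ S.erase ℓ, trF D g (Bend J (G κ) p j) ∈ Mx R ξ := by
      intro κ hκ
      have hp' : IsP (fun i => trF D g (fun E => (J ^ i) E)) p := by rw [← ht]; exact hp
      refine tr_mx h hN hfin hD hg hΔ hFT (bend_pres hJR (hGR κ) hpR j) (κ := κ)
        (div_Bend hfin hD hg hη.alt hcl hη.inj hβa hβc (hc κ).1.alt (hc κ).2.1 (hc κ).2.2 hJ
          (hG κ) hp' j) fun hcon => ?_
      apply (Finset.mem_erase.mp hκ).1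
      rw [← hℓn] at hcon
      exact mul_right_cancel₀ hn' hcon
    have h2 := Submodule.sum_mem _ h1
    have h3 : ∑ κ ∈ S.erase ℓ, trF D g (Bend J (G κ) p j) =
        ∑ i ∈ Finset.range (j + 1), p (j - i) * t (i + 1) := by
      rw [← trF_sum D g (S.erase ℓ) fun κ => (Bend J (G κ) p j)]
      have h4 : (fun E => ∑ κ ∈ S.erase ℓ, Bend J (G κ) p j E) =
          fun E => ∑ i ∈ Finset.range (j + 1), p (j - i) • (J ^ (i + 1)) E := by
        funext E
        simp only [bend_apply]
        rw [Finset.sum_comm]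
        refine Finset.sum_congr rfl fun i _ => ?_
        rw [← Finset.smul_sum, ← map_sum, ← hGsum]
        congr 1
      rw [h4, trF_sum D g (Finset.range (j + 1)) fun i E => p (j - i) • (J ^ (i + 1)) E]
      refine Finset.sum_congr rfl fun i _ => ?_
      rw [ht]
      exact trF_smul D g (p (j - i)) fun E => (J ^ (i + 1)) E
    rwa [h3] at h2
  have hpM : ∀ m, p (m + 1) ∈ Mx R ξ := by
    intro m
    have h1 : ((m : K) + 1) * (2 * p (m + 1)) ∈ Mx R ξ := by
      have h2 : ((m : K) + 1) * (2 * p (m + 1)) = 2 * ((m : K) + 1) * p (m + 1) := by ring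
      rw [h2, hp.succ]
      exact Submodule.neg_mem _ (hkey m)
    have h3 := sub_of_nat_mul h1
    have h4 : (((1 : ℕ) : K) + 1) * p (m + 1) ∈ Mx R ξ := by
      have h5 : (((1 : ℕ) : K) + 1) * p (m + 1) = 2 * p (m + 1) := by
        rw [Nat.cast_one]
        ring
      rw [h5]
      exact h3
    exact sub_of_nat_mul h4
  have htM : ∀ j, t (j + 1) ∈ Mx R ξ := by
    intro j
    have h1 := hkey j
    rw [Finset.sum_range_succ, Nat.sub_self, hp.zero, one_mul] at h1
    have h2 : ∑ i ∈ Finset.range j, p (j - i) * t (i + 1) ∈ Mx R ξ := by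
      refine Submodule.sum_mem _ fun i hi => ?_
      have hi' := Finset.mem_range.mp hi
      obtain ⟨m, hm⟩ : ∃ m, j - i = m + 1 := ⟨j - i - 1, by omega⟩
      rw [hm]
      exact h.mx_mul (hpM m) (htR _)
    have h3 := Submodule.sub_mem _ h1 h2
    have e : ∑ i ∈ Finset.range j, p (j - i) * t (i + 1) + t (j + 1) -
        ∑ i ∈ Finset.range j, p (j - i) * t (i + 1) = t (j + 1) := by ring
    rwa [e] at h3
  -- the determinant
  obtain ⟨q, hq0, hq, hdet, cc, hcc, hinv⟩ := newton_det (matF D g J)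
  have htr : ∀ i, (matF D g J ^ i).trace = t i := by
    intro i
    rw [ht, ← matF_pow hD]
    rfl
  have hqR : ∀ m, q m ∈ R := by
    intro m
    induction m using Nat.strong_induction_on with
    | _ m ih =>
      rcases m with _ | m
      · rw [hq0]
        exact R.one_mem
      · have h1 : ((m : K) + 1) * q (m + 1) ∈ RS R := by
          rw [hq]
          refine Submodule.neg_mem _ (Submodule.sum_mem _ fun i hi => ?_)
          rw [htr]
          exact R.mul_mem (ih _ (by have := Finset.mem_range.mp hi; omega)) (htR _)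
        exact sub_of_nat_mul h1
  have hqM : ∀ m, q (m + 1) ∈ Mx R ξ := by
    intro m
    have h1 : ((m : K) + 1) * q (m + 1) ∈ Mx R ξ := by
      rw [hq]
      refine Submodule.neg_mem _ (Submodule.sum_mem _ fun i _ => ?_)
      rw [htr, mul_comm]
      exact h.mx_mul (htM _) (hqR _)
    exact sub_of_nat_mul h1
  have hGM : matF D g (G ℓ) = 1 - matF D g J := by
    rw [← matF_one hD]
    ext i k
    show G ℓ (D i) (g k) / g k = D i (g k) / g k - J (D i) (g k) / g k
    rw [hGℓ, Derivation.sub_apply, sub_div]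
  have hgram : gram (c ℓ) D = matF D g (G ℓ) * gram η D := by
    ext i j
    rw [Matrix.mul_apply]
    show c ℓ (D i) (D j) = _
    rw [← hG]
    conv_lhs => rw [hD.complete (G ℓ (D i))]
    rw [map_sum, LinearMap.sum_apply]
    refine Finset.sum_congr rfl fun k _ => ?_
    rw [map_smul, LinearMap.smul_apply, smul_eq_mul]
    rfl
  have hΔ0 := gram_det_ne_zero hD hη.alt hη.inj
  set δ : K := (1 - matF D g J).det with hδ
  have hδΔ : (gram (c ℓ) D).det = δ * (gram η D).det := by
    rw [hgram, Matrix.det_mul, hGM]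
  have hδR : δ ∈ R := by
    rw [hdet]
    exact Subalgebra.sum_mem _ fun m _ => hqR m
  have hδ1 : δ - 1 ∈ Mx R ξ := by
    rw [hdet, Finset.sum_range_succ', hq0, add_sub_cancel_right]
    exact Submodule.sum_mem _ fun m _ => hqM m
  have hδξ : ξ δ = 0 := by
    have h1 : ξ (gram (c ℓ) D).det = ((2 * a : ℝ) : ℂ) • (gram (c ℓ) D).det := by
      have h2 := eig_det ℓ (M := gram (c ℓ) D) fun i j => homForm_eig (hc ℓ).2.2 (hDξ i) (hDξ j)
      have e : ((2 * n : ℕ) : ℝ) * ℓ = 2 * a := by
        push_cast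
        rw [← hℓn]
        ring
      rwa [e] at h2
    rw [hδΔ, Derivation.leibniz, hΔ, smul_eq_mul, smul_eq_mul, mul_smul_comm] at h1
    have h3 : (gram η D).det * ξ δ = 0 := by
      have := add_left_cancel (a := ((2 * a : ℝ) : ℂ) • (δ * (gram η D).det))
        (b := (gram η D).det * ξ δ) (c := 0) (by rw [h1, add_zero])
      exact this
    exact (mul_eq_zero.mp h3).resolve_left hΔ0
  obtain ⟨z, hz⟩ := h.const δ hδR hδξ
  have hδe : δ = 1 := by
    have h1 : algebraMap ℂ K (z - 1) ∈ Mx R ξ := by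
      rw [map_sub, map_one, ← hz]
      exact hδ1
    have h2 := mx_const h1
    rw [hz, sub_eq_zero.mp h2, map_one]
  have hgd : (gram (c ℓ) D).det = (gram η D).det := by rw [hδΔ, hδe, one_mul]
  have hgd' : ∀ E : Fin (2 * n) → Derivation ℂ K K, (gram (c ℓ) E).det = (gram η E).det := by
    intro E
    rw [gram_det_change hD E, gram_det_change hD E, hgd]
  -- the inverse endomorphism
  set C : Derivation ℂ K K →ₗ[K] Derivation ℂ K K :=
    ∑ i ∈ Finset.range (2 * n + 1), cc i • J ^ i with hC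
  have hCa : ∀ E, C E = ∑ i ∈ Finset.range (2 * n + 1), cc i • (J ^ i) E := fun E => by
    rw [hC, LinearMap.sum_apply]
    rfl
  have hCR : PresE R C := by
    intro E hE
    rw [hCa]
    exact pres_sum _ fun i _ => pres_fsmul (hcc R hqR i) (hJR.pow i E hE)
  have hCM : matF D g C = ∑ i ∈ Finset.range (2 * n + 1), cc i • matF D g J ^ i := by
    ext k l
    rw [Matrix.sum_apply]
    show C (D k) (g l) / g l = _
    rw [hCa, der_sum_apply, Finset.sum_div]
    refine Finset.sum_congr rfl fun i _ => ?_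
    rw [← matF_pow hD, Matrix.smul_apply, Derivation.smul_apply, smul_eq_mul, smul_eq_mul,
      mul_div_assoc]
    rfl
  have hCG : ∀ E, C (G ℓ E) = E := by
    intro E
    refine matF_lin_ext hD (J := C.comp (G ℓ)) (J' := LinearMap.id) ?_ E
    have h1 : matF D g (C.comp (G ℓ)) = matF D g (G ℓ) * matF D g C := matF_mul hD C (G ℓ)
    have h2 : matF D g (LinearMap.id : Derivation ℂ K K →ₗ[K] Derivation ℂ K K) = 1 :=
      matF_one hD
    rw [h1, h2, hCM, hGM, hinv, hδe, one_smul]
  refine ⟨c ℓ, ⟨(hc ℓ).1, inj_of_det hD (by rw [hgd]; exact hΔ0), fun X hX => ?_⟩, ?_, ?_⟩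
  · have h1 : Pres R (G ℓ X) := hη.perfect _ fun E hE => by
      rw [hG]
      exact hX E hE
    have h2 := hCR _ h1
    rwa [hCG] at h2
  · rw [← hℓ]
    exact (hc ℓ).2.2
  · refine ⟨(hasLogDisc_congr hgd').mp hmin.1, hmin.2.1, fun w a' V' hw ha' hV' => ?_⟩
    exact hmin.2.2 w a' V' hw ((hasLogDisc_congr hgd').mpr ha') hV'

end Pool.Agent.Helper37.SD
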