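import Pool.Agent.Helper37.TF.Fin2

/-!
# T*, form half: the limits
-/

set_option autoImplicit false

namespace Pool.Agent.Helper37.SD

open Module Filter Topology

variable {K : Type} [Field K] [Algebra ℂ K] {R : Subalgebra ℂ K} {ξ : Derivation ℂ K K}

/-- `FT` from the trace identity and the vanishing of the Futaki invariant, for an abstract
trace `τ`. -/
theorem ft_of (h : IsCone R ξ) {n : ℕ} {η : Form K} {a : ℝ} (ha : a ≠ 0)
    (τ : Derivation ℂ K K → ℕ → ℂ)
    (hTI : ∀ (B : Derivation ℂ K K →ₗ[K] Derivation ℂ K K), PresE R B →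
      (∀ E, ⁅ξ, B E⁆ = B ⁅ξ, E⁆) → ∀ (D : Fin (2 * n) → Derivation ℂ K K) (g : Fin (2 * n) → K),
      IsFrame D g → (∀ i, ∃ c : ℝ, ξ (g i) = (c : ℂ) • g i) → ∀ t : ℂ,
      trF D g B = algebraMap ℂ K t →
        Tendsto (fun m => τ (B ξ) m / τ ξ m) atTop (𝓝 (t / (2 * n))))
    (hFut : ∀ Y : Derivation ℂ K K, Pres R Y → ⁅ξ, Y⁆ = 0 →
      ∀ (D : Fin (2 * n) → Derivation ℂ K K) (g : Fin (2 * n) → K), IsFrame D g → ∀ δ : ℂ,
        dvF D g (gram η D).det Y = algebraMap ℂ K δ →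
          Tendsto (fun m => τ Y m / τ ξ m) atTop (𝓝 (δ / a))) : FT n R ξ η a := by
  intro B hB hBξ D g hD hg t δ ht hδ
  have haC : (a : ℂ) ≠ 0 := by exact_mod_cast ha
  by_cases hn : n = 0
  · subst hn
    have h1 : algebraMap ℂ K t = 0 := by
      rw [← ht]
      unfold trF
      exact Finset.sum_eq_zero fun i _ => i.elim0
    have h2 : t = 0 := by
      by_contra h3
      exact (map_ne_zero _).mpr h3 h1
    rw [h2]
    simp
  have hnC : ((n : ℕ) : ℂ) ≠ 0 := by exact_mod_cast hn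
  have hξp : Pres R ξ := h.pres
  have h1 := hFut (B ξ) (hB ξ hξp) (by rw [hBξ, lie_self, map_zero]) D g hD δ hδ
  have h2 := hTI B hB hBξ D g hD hg t ht
  have h3 := tendsto_nhds_unique h1 h2
  rw [div_eq_div_iff haC (mul_ne_zero two_ne_zero hnC)] at h3
  linear_combination h3

end Pool.Agent.Helper37.SD
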