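import Pool.Agent.Helper37.TF.Defs

/-!
# T*, form half: traces of endomorphisms of `Der R` are in `R`
-/

set_option autoImplicit false

namespace Pool.Agent.Helper37.SD

open Module

variable {K : Type} [Field K] [Algebra ℂ K] {R : Subalgebra ℂ K} {ξ : Derivation ℂ K K}

/-- Every derivation of `K` is a multiple of a derivation of `R`: for generators `T` of `R` (`IsCone.exists_gens` or `h.fg`) write
`E t = a t / b t` with `a t, b t ∈ R` (`IsFrac`), `b = ∏ b t`; then `b • E` maps `T` to `R`, `pres_of_gens`. -/
theorem IsCone.pres_den (h : IsCone R ξ) (E : Derivation ℂ K K) :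
    ∃ b ∈ R, b ≠ 0 ∧ Pres R (b • E) := by
  classical
  obtain ⟨T, δ, _, hT, hR⟩ := h.exists_gens
  have h1 : ∀ t : K, ∃ q : K, q ∈ R ∧ q ≠ 0 ∧ E t * q ∈ R := by
    intro t
    obtain ⟨a, ha, b, hb, hb0, e⟩ := h.frac (E t)
    refine ⟨b, hb, hb0, ?_⟩
    rw [e, div_mul_cancel₀ _ hb0]
    exact ha
  choose q hq1 hq2 hq3 using h1
  refine ⟨∏ t ∈ T, q t, Subalgebra.prod_mem _ fun t _ => hq1 t,
    Finset.prod_ne_zero_iff.mpr fun t _ => hq2 t, ?_⟩
  refine pres_of_gens hR fun t ht => ?_
  show (∏ t ∈ T, q t) * E t ∈ R
  rw [← Finset.mul_prod_erase T q ht, mul_comm, ← mul_assoc]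
  exact R.mul_mem (hq3 t) (Subalgebra.prod_mem _ fun t _ => hq1 t)

/-- the derivations of `R` as a module over `R` -/
private def derR (R : Subalgebra ℂ K) : Submodule R (Derivation ℂ K K) where
  carrier := {E | Pres R E}
  add_mem' := fun hD hE x hx => R.add_mem (hD x hx) (hE x hx)
  zero_mem' := fun _ _ => R.zero_mem
  smul_mem' := fun z D hD x hx => by
    show (z • D) x ∈ R
    rw [Derivation.smul_apply]
    show (z : K) * D x ∈ R
    exact R.mul_mem z.2 (hD x hx)

private theorem derR_finite (h : IsCone R ξ) : Module.Finite R (derR R) := by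
  classical
  obtain ⟨T, δ, _, hT, hR⟩ := h.exists_gens
  have : Algebra.FiniteType ℂ R := by
    have := h.fg
    exact (Subalgebra.fg_iff_finiteType R).1 this
  have : IsNoetherianRing R := Algebra.FiniteType.isNoetherianRing ℂ R
  let f : derR R →ₗ[R] (T → R) :=
    { toFun := fun E t => ⟨(E : Derivation ℂ K K) t, E.2 _ (hT _ t.2).1⟩
      map_add' := fun _ _ => rfl
      map_smul' := fun c E => by
        funext t
        apply Subtype.ext
        show (c • (E : Derivation ℂ K K)) t = _
        rw [Derivation.smul_apply]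
        rfl }
  have hf : Function.Injective f := by
    rw [injective_iff_map_eq_zero]
    intro E hE
    apply Subtype.ext
    refine der_eq_zero_of_gens hR h.frac fun t ht => ?_
    have h1 := congrFun hE ⟨t, ht⟩
    exact congrArg Subtype.val h1
  have : IsNoetherian R (derR R) := isNoetherian_of_injective f hf
  infer_instance

private theorem exists_poly (h : IsCone R ξ) {B : Derivation ℂ K K →ₗ[K] Derivation ℂ K K}
    (hB : PresE R B) : ∃ f : Polynomial R, f.Monic ∧
      ∀ E : Derivation ℂ K K, ∑ n ∈ Finset.range (f.natDegree + 1),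
        (f.coeff n : K) • (B ^ n) E = 0 := by
  have hfin := derR_finite h
  let b : derR R →ₗ[R] derR R :=
    { toFun := fun E => ⟨B E, hB _ E.2⟩
      map_add' := fun E F => by
        apply Subtype.ext
        exact B.map_add _ _
      map_smul' := fun c E => by
        apply Subtype.ext
        show B (c • (E : Derivation ℂ K K)) = c • B (E : Derivation ℂ K K)
        exact B.map_smul (c : K) _ }
  have hi : Algebra.IsIntegral R (Module.End R (derR R)) := inferInstance
  obtain ⟨f, hf1, hf2⟩ := hi.isIntegral b
  refine ⟨f, hf1, ?_⟩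
  have hpow : ∀ (n : ℕ) (E : derR R), ((b ^ n) E : Derivation ℂ K K) = (B ^ n) E := by
    intro n
    induction n with
    | zero => intro E; rfl
    | succ n ih =>
      intro E
      rw [pow_succ', pow_succ']
      show B ((b ^ n) E : Derivation ℂ K K) = B ((B ^ n) E)
      rw [ih]
  have hM : ∀ E : derR R, ∑ n ∈ Finset.range (f.natDegree + 1),
        (f.coeff n : K) • (B ^ n) (E : Derivation ℂ K K) = 0 := by
    intro E
    have h1 : (Polynomial.aeval b f) E = 0 := by
      have : Polynomial.aeval b f = 0 := hf2
      rw [this]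
      rfl
    rw [Polynomial.aeval_eq_sum_range, LinearMap.sum_apply] at h1
    have h2 := congrArg Subtype.val h1
    refine Eq.trans ?_ h2
    rw [AddSubmonoidClass.coe_finsetSum]
    refine Finset.sum_congr rfl fun n _ => ?_
    rw [← hpow]
    rfl
  intro E
  obtain ⟨c, hc, hc0, hcE⟩ := h.pres_den E
  have h2 := hM ⟨c • E, hcE⟩
  have h3 : c • (∑ n ∈ Finset.range (f.natDegree + 1), (f.coeff n : K) • (B ^ n) E) = 0 := by
    rw [← h2, Finset.smul_sum]
    refine Finset.sum_congr rfl fun n _ => ?_
    show _ = (f.coeff n : K) • (B ^ n) (c • E)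
    rw [map_smul, smul_comm]
  exact (smul_eq_zero.mp h3).resolve_left hc0

/-- The trace of an endomorphism of `Der R` lies in `R` if `R` is integrally closed.

Plan.  `M = {E | Pres R E}` is an `R`-module, finitely generated: `R` is Noetherian (`Algebra.FiniteType ℂ R` from `h.fg`,
Hilbert basis theorem `Algebra.FiniteType.isNoetherianRing`), `M → (T → R)`, `E ↦ (E t)`, is injective (`der_eq_zero_of_gens`).
`B` restricts to an `R`-linear endomorphism of `M`, which is integral over `R` (`Module.End.isIntegral` / Cayley-Hamilton): there is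
a monic `f ∈ R[X]` with `f (B) = 0` on `M`, hence (by `IsCone.pres_den`, `B` is `K`-linear) `f (B) = 0` on `Der K` and
`aeval (matF D g B) (f.map) = 0` (`matF_pow`, `matF D g` is additive; the order of multiplication does not matter for powers).
Over the algebraic closure `Kc` of `K` the trace of `(matF D g B).map` is the sum of the roots of its characteristic
polynomial (`Matrix.trace_eq_sum_roots_charpoly`), which are eigenvalues (`Matrix.mem_spectrum_iff_isRoot_charpoly` or similar),
hence roots of `f`, hence integral over `R`.  So the trace is integral over `R` (`IsIntegral.sum`/`Multiset.sum`,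
`isIntegral_algebraMap_iff`), use `hN`.  `trF D g B = (matF D g B).trace` is `trF_eq`. -/
theorem trF_mem (h : IsCone R ξ) (hN : ∀ x : K, IsIntegral R x → x ∈ R) {d : ℕ}
    {D : Fin d → Derivation ℂ K K} {g : Fin d → K} (hD : IsFrame D g)
    {B : Derivation ℂ K K →ₗ[K] Derivation ℂ K K} (hB : PresE R B) : trF D g B ∈ R := by
  classical
  obtain ⟨f, hf, hfB⟩ := exists_poly h hB
  apply hN
  rw [trF_eq]
  set P := matF D g B with hP
  let L := AlgebraicClosure K
  have hfP : ∑ n ∈ Finset.range (f.natDegree + 1), (f.coeff n : K) • P ^ n = 0 := by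
    ext i k
    rw [Matrix.sum_apply]
    have h1 : (∑ n ∈ Finset.range (f.natDegree + 1), (f.coeff n : K) • (B ^ n) (D i)) (g k) / g k =
        (0 : Derivation ℂ K K) (g k) / g k := by rw [hfB (D i)]
    rw [der_sum_apply, Finset.sum_div] at h1
    have h2 : (0 : Derivation ℂ K K) (g k) / g k = 0 := by
      show (0 : K) / g k = 0
      rw [zero_div]
    rw [h2] at h1
    rw [Matrix.zero_apply, ← h1]
    refine Finset.sum_congr rfl fun n _ => ?_
    rw [Matrix.smul_apply, ← matF_pow hD, Derivation.smul_apply, smul_eq_mul, smul_eq_mul,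
      mul_div_assoc]
    rfl
  let Q : Matrix (Fin d) (Fin d) L := P.map (algebraMap K L)
  have hQ : ∑ n ∈ Finset.range (f.natDegree + 1), (algebraMap K L (f.coeff n : K)) • Q ^ n = 0 := by
    have h1 := congrArg (fun M : Matrix (Fin d) (Fin d) K => (algebraMap K L).mapMatrix M) hfP
    simp only [map_sum, map_zero] at h1
    rw [← h1]
    refine Finset.sum_congr rfl fun n _ => ?_
    have h2 : (f.coeff n : K) • P ^ n = Matrix.scalar (Fin d) (f.coeff n : K) * P ^ n := by
      rw [Matrix.scalar_apply, Matrix.smul_eq_diagonal_mul]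
    have h3 : (algebraMap K L (f.coeff n : K)) • Q ^ n =
        Matrix.scalar (Fin d) (algebraMap K L (f.coeff n : K)) * Q ^ n := by
      rw [Matrix.scalar_apply, Matrix.smul_eq_diagonal_mul]
    rw [h2, h3, map_mul, map_pow]
    congr 1
    rw [RingHom.mapMatrix_apply, Matrix.scalar_apply, Matrix.scalar_apply, Matrix.diagonal_map (map_zero _)]
  have htr : algebraMap K L P.trace = Q.trace := by
    rw [Matrix.trace, Matrix.trace, map_sum]
    rfl
  have hint : IsIntegral R (algebraMap K L P.trace) := by
    rw [htr, Matrix.trace_eq_sum_roots_charpoly]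
    refine IsIntegral.multiset_sum fun μ hμ => ?_
    rw [Polynomial.mem_roots (Matrix.charpoly_monic Q).ne_zero, Polynomial.IsRoot.def,
      Matrix.eval_charpoly] at hμ
    obtain ⟨v, hv0, hv⟩ := Matrix.exists_mulVec_eq_zero_iff.mpr hμ
    have hv1 : Q.mulVec v = μ • v := by
      rw [Matrix.sub_mulVec, sub_eq_zero] at hv
      rw [← hv, Matrix.scalar_apply]
      funext i
      rw [Matrix.mulVec_diagonal]
      rfl
    have hv2 : ∀ n : ℕ, (Q ^ n).mulVec v = μ ^ n • v := by
      intro n
      induction n with
      | zero => rw [pow_zero, pow_zero, Matrix.one_mulVec, one_smul]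
      | succ n ih =>
        rw [pow_succ, ← Matrix.mulVec_mulVec, hv1, Matrix.mulVec_smul, ih, smul_smul, pow_succ']
    refine ⟨f, hf, ?_⟩
    have h5 : (∑ n ∈ Finset.range (f.natDegree + 1), (algebraMap K L (f.coeff n : K)) * μ ^ n) • v = 0 := by
      have h6 := congrArg (fun M : Matrix (Fin d) (Fin d) L => M.mulVec v) hQ
      simp only [Matrix.zero_mulVec] at h6
      rw [Matrix.sum_mulVec] at h6
      rw [← h6, Finset.sum_smul]
      refine Finset.sum_congr rfl fun n _ => ?_
      rw [Matrix.smul_mulVec, hv2, smul_smul]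
    have h7 := (smul_eq_zero.mp h5).resolve_right hv0
    rw [Polynomial.eval₂_eq_sum_range]
    exact h7
  exact (isIntegral_algebraMap_iff (algebraMap K L).injective).1 hint

end Pool.Agent.Helper37.SD
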