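import Pool.Agent.Helper37.TF.Fut
import Pool.Agent.Helper20.TS.Main

/-!
# T*: traces on the quotients, with short definitions
-/

set_option autoImplicit false

namespace Pool.Agent.Helper37.SD

open Module Filter Topology Pool.Agent.Helper20.TS

variable {K : Type} [Field K] [Algebra ℂ K]

/-- The vector space `R / {v ≥ m}`. -/
def Quo (R : Subalgebra ℂ K) (v : RVal K) (m : ℝ) : Type := R ⧸ idl R v m

noncomputable instance (R : Subalgebra ℂ K) (v : RVal K) (m : ℝ) : AddCommGroup (Quo R v m) :=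
  Submodule.Quotient.addCommGroup (idl R v m)

noncomputable instance (R : Subalgebra ℂ K) (v : RVal K) (m : ℝ) : Module ℂ (Quo R v m) :=
  Submodule.Quotient.module (idl R v m)

/-- The class of `x` in `R / {v ≥ m}`. -/
def cls (R : Subalgebra ℂ K) (v : RVal K) (m : ℝ) (x : R) : Quo R v m := Submodule.Quotient.mk x

/-- `T` is the endomorphism of `R / {v ≥ m}` which is induced by the derivation `Y` of `R`. -/
def IsInd (R : Subalgebra ℂ K) (v : RVal K) (m : ℝ) (Y : Derivation ℂ K K)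
    (T : End ℂ (Quo R v m)) : Prop :=
  ∀ x y : R, (y : K) = Y x → T (cls R v m x) = cls R v m y

/-- `t` is the trace of the endomorphism of `R / {v ≥ m}` which is induced by `Y`. -/
def IsTr (R : Subalgebra ℂ K) (v : RVal K) (m : ℝ) (Y : Derivation ℂ K K) (t : ℂ) : Prop :=
  ∃ T : End ℂ (Quo R v m), IsInd R v m Y T ∧ t = LinearMap.trace ℂ (Quo R v m) T

theorem isTr_qTr {R : Subalgebra ℂ K} {ξ : Derivation ℂ K K} (h : IsCone R ξ) {v : RVal K}
    (hv : IsWt R ξ v) {Y : Derivation ℂ K K} (hY : Pres R Y) (h0 : ⁅ξ, Y⁆ = 0) (m : ℝ) :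
    IsTr R v m Y (qTr R v Y m) := by
  obtain ⟨T, hT⟩ := exists_qact h h hv (fun c => c) (fun c x _ hc => hc) m hY h0
  exact ⟨T, fun x y hxy => hT x y hxy, D1_qTr_eq hY T hT⟩

end Pool.Agent.Helper37.SD
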